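import Pool.Agent.N89.HL.Uni
import Pool.Agent.N769.BD.MOA

/-! Project HL (helper89): the systems of all monomials separate two points. -/

set_option autoImplicit false

namespace Pool.Agent.N89.HL

open MvPolynomial NumberField Pool.Agent.H901R3.MS Pool.Agent.W659 Pool.Agent.W659.SA
  Pool.Agent.N89.GS Pool.Agent.N89.BD Pool.Agent.N89.HX WeierstrassCurve

theorem ren_mul {O : Type} [CommRing O] {r s : ℕ} (F G : Pol O r s 0) :
    ren (F * G) = ren F * ren G := by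
  unfold ren
  exact map_mul _ _ _

theorem ren_mon {O : Type} [CommRing O] {r s : ℕ} (μ : Fin r → Fin 3 → ℕ) (x : Fin s → ℕ)
    (α : Fin 1 → ℕ) :
    ren (mon μ x Fin.elim0 : Pol O r s 0) * (∏ i, X (Sum.inr (Sum.inr i)) ^ α i) = mon μ x α := by
  unfold ren mon
  rw [map_mul, map_mul, map_prod, map_prod, map_prod]
  simp only [map_prod, map_pow, rename_X, Sum.map_inl, Sum.map_inr, id, Finset.prod_of_isEmpty]
  ring

theorem sep2_of_sepAll {O k : Type} [CommRing O] [Field k] (φ : O →+* k) {r s : ℕ}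
    (a b : Fin r → ℤ) {ι : Type} (Λ : ι → Pol O r s 0)
    (h : SepAll φ a b (Fin.elim0 : Fin 0 → Pol O r s 1)
      (fun x => ren (Λ x) * ∏ i : Fin 1, X (Sum.inr (Sum.inr i)) ^ 1) 2) : Sep2 φ a b Λ := by
  rw [← sep2_iff]
  intro l hl V u T hV hT hne
  have hT0 : ∀ i, T i 0 ≠ 0 := by
    intro i h0
    exact (hT i).1 (by funext x; rw [Subsingleton.elim x 0, h0]; rfl)
  have h1 := h l hl V u T hV hT hne
  have h2 : (fun i => fun x => vl φ (ren (Λ x) * ∏ i : Fin 1, X (Sum.inr (Sum.inr i)) ^ 1) (V i)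
      (u i) (T i)) = fun i => T i 0 • (fun x => vl φ (ren (Λ x)) (V i) (u i) (T i)) := by
    funext i x
    rw [Pi.smul_apply, smul_eq_mul]
    unfold vl
    rw [eval₂_mul, Finset.prod_eq_single (0 : Fin 1) (fun b _ hb => absurd (Subsingleton.elim b 0) hb)
      (fun h => absurd (Finset.mem_univ _) h), pow_one, eval₂_X, mul_comm]
    rfl
  rw [h2] at h1
  have h3 := h1.units_smul (fun i => (Units.mk0 (T i 0) (hT0 i))⁻¹)
  convert h3 using 1
  funext i
  show _ = (Units.mk0 (T i 0) (hT0 i))⁻¹ • (T i 0 • (fun x => vl φ (ren (Λ x)) (V i) (u i) (T i)))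
  rw [Units.smul_def, smul_smul, Units.val_inv_eq_inv_val, Units.val_mk0,
    inv_mul_cancel₀ (hT0 i), one_smul]

/-- a system which contains all monomials of a multidegree `d`, all `d i ≥ 1`, with the torus
exponents `x₀ l ≤ x l ≤ x₀ l + 1`, separates two points -/
theorem sep2_mon {O k : Type} [CommRing O] [Field k] (φ : O →+* k) {r s : ℕ} (a b : Fin r → ℤ)
    {ι : Type} (Λ : ι → Pol O r s 0) (d : Fin r → ℕ) (x₀ : Fin s → ℕ) (hd : ∀ i, 1 ≤ d i)
    (h : ∀ (μ : Fin r → Fin 3 → ℕ) (x : Fin s → ℕ), (∀ i, ∑ j, μ i j = d i) →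
      (∀ l, x₀ l ≤ x l ∧ x l ≤ x₀ l + 1) → ∃ y, Λ y = mon μ x Fin.elim0) : Sep2 φ a b Λ := by
  apply sep2_of_sepAll
  refine Pool.Agent.N769.BD.main O k φ r s 1 0 a b Fin.elim0 ι _ 2 d 1 x₀
    (fun i => by have := hd i; omega) (by norm_num) ?_
  intro μ x α hμ hx hα
  obtain ⟨y, hy⟩ := h μ x hμ (fun l => ⟨(hx l).1, by have := (hx l).2; omega⟩)
  refine ⟨y, ?_⟩
  have hα1 : α = fun _ => 1 := by
    funext i
    rw [Subsingleton.elim i 0]
    simpa using hα
  rw [hy, hα1]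
  exact ren_mon μ x (fun _ => 1)

end Pool.Agent.N89.HL
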