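import Pool.Agent.N89.HL.Irr
import Pool.Agent.N89.HL.Mon
import Pool.Agent.N607.HL.POC
import Pool.Agent.N195.HL.ALT
import Pool.Agent.N712.GS.LIN
import Pool.Agent.N141.HX.FRB
import Pool.Agent.N403.BD.SUF
import Pool.Agent.N519.BD.TSA

/-! Project HL (helper89): everything put together. -/

set_option autoImplicit false

namespace Pool.Agent.N89.HL

open MvPolynomial NumberField Pool.Agent.H901R3.MS Pool.Agent.W659 Pool.Agent.W659.SA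
  Pool.Agent.N89.GS Pool.Agent.N89.BD Pool.Agent.N89.HX WeierstrassCurve

/-- the `c` such that for some point of `G` over `L` the Galois group does not contain `A_e` -/
def BadG {K L : Type} [Field K] [NumberField K] [Field L] [Algebra K L] {N r s e : ℕ}
    (ω : Module.Basis (Fin N) ℤ (𝓞 K)) (a b : Fin r → ℤ) (Φ : Fin (e + 1) → Pol (𝓞 K) r s 0)
    {ι : Fin (e + 1) → Type} [∀ i, Fintype (ι i)] (Λ : (i : Fin (e + 1)) → ι i → Pol (𝓞 K) r s 0)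
    (Γ : Subgroup Lˣ) : Set ((Σ i, ι i) × Fin N → ℤ) :=
  {c | ∃ (V : Fin r → Fin 3 → L) (u : Fin s → Lˣ), (∀ i, FD.OnE (a i) (b i) (V i)) ∧
    (∀ l, u l ∈ Γ) ∧ ¬ (Irreducible (pol (zc (toL K L) Φ Λ V (fun l => ((u l : Lˣ) : L))
      (vecJ ω c))) ∧ AltGal e (pol (zc (toL K L) Φ Λ V (fun l => ((u l : Lˣ) : L)) (vecJ ω c))))}

theorem badG_sub {K L : Type} [Field K] [NumberField K] [Field L] [Algebra K L] {N r s e : ℕ}
    (he : 3 ≤ e)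
    (ω : Module.Basis (Fin N) ℤ (𝓞 K)) (a b : Fin r → ℤ) (Φ : Fin (e + 1) → Pol (𝓞 K) r s 0)
    {ι : Fin (e + 1) → Type} [∀ i, Fintype (ι i)] (Λ : (i : Fin (e + 1)) → ι i → Pol (𝓞 K) r s 0)
    (Γ : Subgroup Lˣ) : BadG ω a b Φ Λ Γ ⊆ BadC ω a b Φ Λ Γ := by
  rintro c ⟨V, u, hV, hu, hc⟩
  refine ⟨V, u, hV, hu, fun hs => hc ?_⟩
  have h := Pool.Agent.N195.HL.ALT.main L e _ he hs
  exact ⟨irreducible_of_altGal he h, h⟩

/-- **The theorem.** -/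
theorem finHL (K : Type) [Field K] [NumberField K] (N : ℕ) (ω : Module.Basis (Fin N) ℤ (𝓞 K))
    (r s e : ℕ) (he : 3 ≤ e) (a b : Fin r → ℤ)
    (hab : ∀ i, a i * b i = 0 ∧ (a i ≠ 0 ∨ b i ≠ 0))
    (Φ : Fin (e + 1) → Pol (𝓞 K) r s 0)
    (ι : Fin (e + 1) → Type) [∀ i, Fintype (ι i)] (Λ : (i : Fin (e + 1)) → ι i → Pol (𝓞 K) r s 0)
    (d : Fin r → ℕ) (hdΦ : ∀ i, MHomog (Φ i) d) (hdΛ : ∀ i x, MHomog (Λ i x) d)
    (σ₀ : K →+* ℂ) (hsep : ∀ i, Sep2 (toC σ₀) a b (Λ i)) :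
    (∀ (L : Type) [Field L] [NumberField L] [Algebra K L] (S : ℕ), 1 ≤ S →
      ∃ c₀ : ℝ, 0 < c₀ ∧ ∃ H₀ : ℕ, ∀ H : ℕ, H₀ ≤ H →
      (({c : (Σ i, ι i) × Fin N → ℤ | (∀ i, |c i| ≤ (H : ℤ)) ∧
        c ∈ BadG (L := L) ω a b Φ Λ (SUn L S)}.ncard : ℕ) : ℝ) ≤
        (2 * (H : ℝ) + 1) ^ (Fintype.card (Σ i, ι i) * N) *
          Real.exp (-c₀ * (Real.log H / Real.log (Real.log H)))) ∧
    ∃ E : Set ((Σ i, ι i) × Fin N → ℤ),
      (∃ H₀ : ℕ, ∀ H : ℕ, H₀ ≤ H → (({c : (Σ i, ι i) × Fin N → ℤ |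
        (∀ i, |c i| ≤ (H : ℤ)) ∧ c ∈ E}.ncard : ℕ) : ℝ) ≤
        (2 * (H : ℝ) + 1) ^ (Fintype.card (Σ i, ι i) * N) *
          Real.exp (-(Real.log H / Real.log (Real.log H) ^ 2))) ∧
      ∀ (L : Type) [Field L] [NumberField L] [Algebra K L] (S : ℕ), 1 ≤ S →
        (BadG (L := L) ω a b Φ Λ (SUn L S) \ E).Finite := by
  have hM : ∀ (L : Type) [Field L] [NumberField L] [Algebra K L] (S : ℕ), 1 ≤ S →
      ∃ c₀ : ℝ, 0 < c₀ ∧ ∃ H₀ : ℕ, ∀ H : ℕ, H₀ ≤ H →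
      (({c : (Σ i, ι i) × Fin N → ℤ | (∀ i, |c i| ≤ (H : ℤ)) ∧
        c ∈ BadC (L := L) ω a b Φ Λ (SUn L S)}.ncard : ℕ) : ℝ) ≤
        (2 * (H : ℝ) + 1) ^ (Fintype.card (Σ i, ι i) * N) *
          Real.exp (-c₀ * (Real.log H / Real.log (Real.log H))) := by
    intro L _ _ _ S hS
    exact mainHL Pool.Agent.N712.GS.mainLIN Pool.Agent.N712.GS.mainLIN1
      Pool.Agent.N607.HL.POC.main Pool.Agent.N141.HX.FRB.main Pool.Agent.N403.BDSUF.main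
      K N ω r s e a b hab Φ ι Λ d hdΦ hdΛ
      (trans2 Pool.Agent.N519.BD.TSA.main K a b Λ σ₀ hsep) L S hS
  refine ⟨?_, ?_⟩
  · intro L _ _ _ S hS
    obtain ⟨c₀, hc₀, H₀, h⟩ := hM L S hS
    refine ⟨c₀, hc₀, H₀, fun H hH => le_trans ?_ (h H hH)⟩
    have h1 : {c : (Σ i, ι i) × Fin N → ℤ | (∀ i, |c i| ≤ (H : ℤ)) ∧
        c ∈ BadG (L := L) ω a b Φ Λ (SUn L S)} ⊆ {c : (Σ i, ι i) × Fin N → ℤ |
        (∀ i, |c i| ≤ (H : ℤ)) ∧ c ∈ BadC (L := L) ω a b Φ Λ (SUn L S)} := fun c hc =>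
      ⟨hc.1, badG_sub he ω a b Φ Λ _ hc.2⟩
    exact_mod_cast Set.ncard_le_ncard h1 ((boxJ_finite H).subset fun c hc => hc.1)
  · obtain ⟨E, hE1, hE2⟩ := uniHL K a b Φ ι Λ ω hM
    exact ⟨E, hE1, fun L _ _ _ S hS => (hE2 L S hS).subset
      (Set.sdiff_subset_sdiff_left (badG_sub he ω a b Φ Λ _))⟩

/-! ### The form without dummy variables -/

/-- polynomials in the coordinates of `V` and `u` -/
noncomputable def up {O : Type} [CommRing O] {r s : ℕ}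
    (F : MvPolynomial ((Fin r × Fin 3) ⊕ Fin s) O) : Pol O r s 0 :=
  rename (Sum.map id Sum.inl) F

theorem up_inj {r s : ℕ} : Function.Injective
    (Sum.map id Sum.inl : (Fin r × Fin 3) ⊕ Fin s → (Fin r × Fin 3) ⊕ (Fin s ⊕ Fin 0)) :=
  Sum.map_injective.2 ⟨Function.injective_id, Sum.inl_injective⟩

theorem vl_up {O k : Type} [CommRing O] [CommRing k] (φ : O →+* k) {r s : ℕ}
    (F : MvPolynomial ((Fin r × Fin 3) ⊕ Fin s) O)
    (V : Fin r → Fin 3 → k) (u : Fin s → k) (T : Fin 0 → k) :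
    vl φ (up F) V u T = eval₂ φ (Sum.elim (fun ij => V ij.1 ij.2) u) F := by
  unfold vl up
  rw [eval₂_rename]
  congr 1
  funext x
  rcases x with x | x <;> rfl

theorem mhomog_up {O : Type} [CommRing O] {r s : ℕ}
    {F : MvPolynomial ((Fin r × Fin 3) ⊕ Fin s) O} {d : Fin r → ℕ}
    (h : ∀ μ ∈ F.support, ∀ i, ∑ j, μ (Sum.inl (i, j)) = d i) : MHomog (up F) d := by
  classical
  intro m hm i
  unfold up at hm
  rw [support_rename_of_injective up_inj, Finset.mem_image] at hm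
  obtain ⟨μ, hμ, rfl⟩ := hm
  rw [← h μ hμ i]
  refine Finset.sum_congr rfl fun j _ => ?_
  exact Finsupp.mapDomain_apply up_inj μ (Sum.inl (i, j))

theorem up_mon {O : Type} [CommRing O] {r s : ℕ} (μ : Fin r → Fin 3 → ℕ) (x : Fin s → ℕ) :
    up ((∏ i, ∏ j, X (Sum.inl (i, j)) ^ μ i j) * ∏ l, X (Sum.inr l) ^ x l :
      MvPolynomial ((Fin r × Fin 3) ⊕ Fin s) O) = mon μ x Fin.elim0 := by
  unfold up mon
  rw [map_mul, map_prod, map_prod]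
  simp only [map_prod, map_pow, rename_X, Sum.map_inl, Sum.map_inr, id, Finset.prod_of_isEmpty,
    mul_one]

end Pool.Agent.N89.HL
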