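import Pool.Agent.N89.HL.Main2
import Pool.Agent.N89.GS.Uni

/-! Project HL (helper89): transfer of the separation of two points, and one exceptional set for all
the fields `L` and all `S`. -/

set_option autoImplicit false

namespace Pool.Agent.N89.HL

open MvPolynomial NumberField Pool.Agent.H901R3.MS Pool.Agent.W659 Pool.Agent.W659.SA
  Pool.Agent.N89.GS Pool.Agent.N89.BD Pool.Agent.N89.HX WeierstrassCurve IntermediateField

/-! ### Transfer -/

/-- the polynomial with a dummy variable -/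
noncomputable def ren {O : Type} [CommRing O] {r s : ℕ} (F : Pol O r s 0) : Pol O r s 1 :=
  rename (Sum.map id (Sum.map id Fin.elim0)) F

theorem vl_ren {O k : Type} [CommRing O] [CommRing k] (φ : O →+* k) {r s : ℕ} (F : Pol O r s 0)
    (V : Fin r → Fin 3 → k) (u : Fin s → k) (T : Fin 1 → k) :
    vl φ (ren F) V u T = vl φ F V u Fin.elim0 := by
  unfold vl ren
  rw [eval₂_rename]
  congr 1
  funext x
  rcases x with x | x | x
  · rfl
  · rfl
  · exact x.elim0

theorem sameB_symm {k : Type} [Field k] {r s : ℕ} {V V' : Fin r → Fin 3 → k} {u u' : Fin s → k}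
    (h0 : ∀ i, V i ≠ 0) (h : SameB V u V' u') : SameB V' u' V u := by
  refine ⟨fun i => ?_, h.2.symm⟩
  obtain ⟨c, hc⟩ := h.1 i
  have hc0 : c ≠ 0 := by
    rintro rfl
    exact h0 i (by rw [hc, zero_smul])
  exact ⟨c⁻¹, by rw [hc, smul_smul, inv_mul_cancel₀ hc0, one_smul]⟩

theorem sep2_iff {O k : Type} [CommRing O] [Field k] (φ : O →+* k) {r s : ℕ} (a b : Fin r → ℤ)
    {ι : Type} (Λ : ι → Pol O r s 0) :
    SepAll φ a b (Fin.elim0 : Fin 0 → Pol O r s 1) (fun x => ren (Λ x)) 2 ↔ Sep2 φ a b Λ := by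
  constructor
  · intro h
    refine ⟨fun V u hV => ?_, fun V V' u u' hV hV' hne => ?_⟩
    · have h1 := h 1 (by norm_num) (fun _ => V) (fun _ => u) (fun _ => fun _ => 1)
        (fun _ => hV) (fun _ => ⟨fun h0 => one_ne_zero (congrFun h0 0), fun e => e.elim0⟩)
        (fun i j hij => absurd (Subsingleton.elim i j) hij)
      have h2 := h1.ne_zero 0
      simp only [vl_ren] at h2
      obtain ⟨x, hx⟩ := Function.ne_iff.1 h2
      exact ⟨x, hx⟩
    · have h1 := h 2 le_rfl ![V, V'] ![u, u'] (fun _ => fun _ => 1)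
        (fun i => by fin_cases i; exacts [hV, hV'])
        (fun _ => ⟨fun h0 => one_ne_zero (congrFun h0 0), fun e => e.elim0⟩)
        (fun i j hij hh => by
          fin_cases i <;> fin_cases j
          · exact hij rfl
          · exact hne hh.1
          · exact hne (sameB_symm (fun i => (hV'.1 i).1) hh.1)
          · exact hij rfl)
      simp only [vl_ren] at h1
      convert h1 using 1
      funext i
      fin_cases i <;> rfl
  · rintro ⟨h1, h2⟩ l hl V u T hV hT hne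
    simp only [vl_ren]
    have hTc : ∀ i j, ∃ c : k, T i = c • T j := by
      intro i j
      have hj : T j 0 ≠ 0 := by
        intro h0
        exact (hT j).1 (by funext x; rw [Subsingleton.elim x 0, h0]; rfl)
      refine ⟨T i 0 * (T j 0)⁻¹, ?_⟩
      funext x
      rw [Subsingleton.elim x 0, Pi.smul_apply, smul_eq_mul]
      field_simp
    interval_cases l
    · exact linearIndependent_empty_type
    · rw [linearIndependent_unique_iff]
      obtain ⟨x, hx⟩ := h1 (V 0) (u 0) (hV 0)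
      intro h0
      exact hx (congrFun h0 x)
    · have h3 := h2 (V 0) (V 1) (u 0) (u 1) (hV 0) (hV 1)
        (fun hh => hne 0 1 (by decide) ⟨hh, hTc 0 1⟩)
      convert h3 using 1
      funext i
      fin_cases i <;> rfl

theorem trans2 (hTSA : S_TSA) (K : Type) [Field K] [NumberField K] {r s e : ℕ} (a b : Fin r → ℤ)
    {ι : Fin (e + 1) → Type} [∀ i, Fintype (ι i)] (Λ : (i : Fin (e + 1)) → ι i → Pol (𝓞 K) r s 0)
    (σ₀ : K →+* ℂ) (h : ∀ i, Sep2 (toC σ₀) a b (Λ i)) :
    ∃ p₂ : ℕ, ∀ p : ℕ, p.Prime → p₂ ≤ p → ∀ (k : Type) [Field k] [CharP k p]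
      (φ : 𝓞 K →+* k), ∀ i, Sep2 φ a b (Λ i) := by
  have h1 : ∀ i, ∃ p₁ : ℕ, ∀ p : ℕ, p.Prime → p₁ ≤ p → ∀ (k : Type) [Field k] [CharP k p]
      (φ : 𝓞 K →+* k), Sep2 φ a b (Λ i) := by
    intro i
    obtain ⟨p₁, hp₁⟩ := hTSA K r s 1 0 a b Fin.elim0 (ι i) (fun x => ren (Λ i x)) 2 σ₀
      ((sep2_iff (toC σ₀) a b (Λ i)).2 (h i))
    exact ⟨p₁, fun p hp hpp k _ _ φ => (sep2_iff φ a b (Λ i)).1 (hp₁ p hp hpp k φ)⟩
  choose p₁ hp₁ using h1
  refine ⟨∑ i, p₁ i, fun p hp hpp k _ _ φ i => hp₁ i p hp (le_trans ?_ hpp) k φ⟩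
  exact Finset.single_le_sum (f := p₁) (fun _ _ => Nat.zero_le _) (Finset.mem_univ i)

/-! ### Transport along isomorphisms -/

theorem sqs_equiv {L L' : Type} [Field L] [Field L'] (g : L ≃+* L') {e : ℕ} (f : Fin (e + 1) → L)
    (h : Sqs (fun i => g (f i))) : Sqs f := by
  intro σ
  obtain ⟨x, τ, ⟨h1, h2, h3⟩, hτ⟩ := h σ
  let E : AlgebraicClosure L' ≃+* AlgebraicClosure L :=
    IsAlgClosure.equivOfEquiv (AlgebraicClosure L') (AlgebraicClosure L) g.symm
  have hE : ∀ y : L', E (algebraMap L' (AlgebraicClosure L') y) =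
      algebraMap L (AlgebraicClosure L) (g.symm y) := fun y =>
    IsAlgClosure.equivOfEquiv_algebraMap (AlgebraicClosure L') (AlgebraicClosure L) g.symm y
  have hE' : ∀ y : L, E.symm (algebraMap L (AlgebraicClosure L) y) =
      algebraMap L' (AlgebraicClosure L') (g y) := by
    intro y
    rw [RingEquiv.symm_apply_eq, hE, g.symm_apply_apply]
  refine ⟨fun i => E (x i), AlgEquiv.ofRingEquiv (f := (E.symm.trans (τ : AlgebraicClosure L' ≃+*
    AlgebraicClosure L')).trans E) (fun y => ?_), ⟨?_, ?_, ?_⟩, fun i => ?_⟩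
  · show E (τ (E.symm (algebraMap L (AlgebraicClosure L) y))) = _
    rw [hE', τ.commutes, hE, g.symm_apply_apply]
  · intro h0
    exact h1 (by show g (f (Fin.last e)) = 0; rw [h0, map_zero])
  · exact E.injective.comp h2
  · have h4 := congrArg (Polynomial.map (E : AlgebraicClosure L' →+* AlgebraicClosure L)) h3
    rw [Polynomial.map_map, Polynomial.map_mul, Polynomial.map_C, Polynomial.map_prod] at h4
    simp only [Polynomial.map_sub, Polynomial.map_X, Polynomial.map_C, RingEquiv.coe_toRingHom,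
      hE, g.symm_apply_apply] at h4
    rw [← h4]
    have h5 : pol (fun i => g (f i)) = (pol f).map (g : L →+* L') := by
      unfold pol
      rw [Polynomial.map_sum]
      refine Finset.sum_congr rfl fun i _ => ?_
      rw [Polynomial.map_mul, Polynomial.map_C, Polynomial.map_pow, Polynomial.map_X]
      rfl
    rw [h5, Polynomial.map_map]
    congr 1
    ext y
    show _ = E (algebraMap L' (AlgebraicClosure L') (g y))
    rw [hE, g.symm_apply_apply]
  · show E (τ (E.symm (E (x i)))) = E (x ((σ ^ 2) i))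
    rw [E.symm_apply_apply, hτ]

theorem isIntegral_unit_map {L L' : Type} [Field L] [Field L'] (g : L →+* L') {S : ℕ} {u : Lˣ}
    (hu : u ∈ SUn L S) : Units.map (g : L →* L') u ∈ SUn L' S := by
  obtain ⟨n, h1, h2⟩ := hu
  refine ⟨n, ?_, ?_⟩
  · have h := h1.map (g.toIntAlgHom)
    convert h using 1
    show _ = g _
    rw [map_mul, map_pow, map_natCast]
    rfl
  · have h := h2.map (g.toIntAlgHom)
    convert h using 1
    show _ = g _
    rw [map_mul, map_pow, map_natCast, ← map_inv]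
    rfl

/-- transport along an isomorphism -/
theorem badC_mono {K L L' : Type} [Field K] [NumberField K] [Field L] [Algebra K L] [Field L']
    [Algebra K L'] (g : L ≃ₐ[K] L') {N r s e : ℕ}
    (ω : Module.Basis (Fin N) ℤ (𝓞 K)) (a b : Fin r → ℤ) (S : ℕ)
    (Φ : Fin (e + 1) → Pol (𝓞 K) r s 0)
    {ι : Fin (e + 1) → Type} [∀ i, Fintype (ι i)] (Λ : (i : Fin (e + 1)) → ι i → Pol (𝓞 K) r s 0) :
    BadC (L := L) ω a b Φ Λ (SUn L S) ⊆ BadC (L := L') ω a b Φ Λ (SUn L' S) := by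
  have hcomp : (g : L →+* L').comp (toL K L) = toL K L' := by
    ext x
    exact g.commutes _
  have hvl : ∀ (P : Pol (𝓞 K) r s 0) (V : Fin r → Fin 3 → L) (u : Fin s → L),
      g (vl (toL K L) P V u Fin.elim0) = vl (toL K L') P (fun i j => g (V i j)) (fun l => g (u l))
        Fin.elim0 := by
    intro P V u
    have h := vl_map (toL K L) (g : L →+* L') P V u Fin.elim0
    rw [hcomp] at h
    refine h.trans ?_
    congr 1
    exact Subsingleton.elim _ _
  rintro c ⟨V, u, hV, hu, hng⟩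
  refine ⟨fun i j => g (V i j), fun l => Units.map ((g : L →+* L') : L →* L') (u l),
    fun i => onE_map (g : L →+* L') (hV i), fun l => isIntegral_unit_map (g : L →+* L') (hu l), ?_⟩
  intro hs
  apply hng
  apply sqs_equiv (g : L ≃+* L')
  convert hs using 1
  funext i
  unfold zc
  show g _ = _
  rw [map_add, map_sum, hvl]
  congr 1
  refine Finset.sum_congr rfl fun x _ => ?_
  rw [map_mul, hvl]
  congr 1
  exact congrArg (fun f : 𝓞 K →+* L' => f (vecJ ω c ⟨i, x⟩)) hcomp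

/-- **One exceptional set for all fields and all `S`.** -/
theorem uniHL (K : Type) [Field K] [NumberField K] {r s e N : ℕ}
    (a b : Fin r → ℤ) (Φ : Fin (e + 1) → Pol (𝓞 K) r s 0)
    (ι : Fin (e + 1) → Type) [∀ i, Fintype (ι i)] (Λ : (i : Fin (e + 1)) → ι i → Pol (𝓞 K) r s 0)
    (ω : Module.Basis (Fin N) ℤ (𝓞 K))
    (hM : ∀ (L : Type) [Field L] [NumberField L] [Algebra K L] (S : ℕ), 1 ≤ S →
      ∃ c₀ : ℝ, 0 < c₀ ∧ ∃ H₀ : ℕ, ∀ H : ℕ, H₀ ≤ H →
      (({c : (Σ i, ι i) × Fin N → ℤ | (∀ i, |c i| ≤ (H : ℤ)) ∧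
        c ∈ BadC (L := L) ω a b Φ Λ (SUn L S)}.ncard : ℕ) : ℝ) ≤
        (2 * (H : ℝ) + 1) ^ (Fintype.card (Σ i, ι i) * N) *
          Real.exp (-c₀ * (Real.log H / Real.log (Real.log H)))) :
    ∃ E : Set ((Σ i, ι i) × Fin N → ℤ),
      (∃ H₀ : ℕ, ∀ H : ℕ, H₀ ≤ H → (({c : (Σ i, ι i) × Fin N → ℤ |
        (∀ i, |c i| ≤ (H : ℤ)) ∧ c ∈ E}.ncard : ℕ) : ℝ) ≤
        (2 * (H : ℝ) + 1) ^ (Fintype.card (Σ i, ι i) * N) *
          Real.exp (-(Real.log H / Real.log (Real.log H) ^ 2))) ∧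
      ∀ (L : Type) [Field L] [NumberField L] [Algebra K L] (S : ℕ), 1 ≤ S →
        (BadC (L := L) ω a b Φ Λ (SUn L S) \ E).Finite := by
  classical
  have hNF : ∀ θ : AlgebraicClosure K, NumberField K⟮θ⟯ := by
    intro θ
    have h1 : FiniteDimensional K K⟮θ⟯ :=
      IntermediateField.adjoin.finiteDimensional (Algebra.IsIntegral.isIntegral θ)
    exact NumberField.of_module_finite K K⟮θ⟯
  obtain ⟨E, hE1, hE2⟩ := diag (X := (Σ i, ι i) × Fin N → ℤ) (I := AlgebraicClosure K × ℕ)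
    (fun (c : (Σ i, ι i) × Fin N → ℤ) (H : ℕ) => ∀ i, |c i| ≤ (H : ℤ))
    (fun c H H' h hc i => (hc i).trans (by exact_mod_cast h))
    (fun H => boxJ_finite H)
    (Fintype.card (Σ i, ι i) * N)
    (fun i => BadC (L := K⟮i.1⟯) ω a b Φ Λ (SUn K⟮i.1⟯ (i.2 + 1))) (by
      intro i
      have := hNF i.1
      exact hM K⟮i.1⟯ (i.2 + 1) (by omega))
  refine ⟨E, hE1, ?_⟩
  intro L _ _ _ S hS
  have hfd : FiniteDimensional K L := inferInstance
  obtain ⟨α, hα⟩ := Field.exists_primitive_element K L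
  let f : L →ₐ[K] AlgebraicClosure K := IsAlgClosed.lift
  have hmem : ∀ x, f x ∈ K⟮f α⟯ := by
    intro x
    have h1 : x ∈ K⟮α⟯ := by rw [hα]; exact IntermediateField.mem_top
    have h2 : (K⟮α⟯).map f = K⟮f α⟯ := by
      rw [IntermediateField.adjoin_map, Set.image_singleton]
    rw [← h2]
    exact ⟨x, h1, rfl⟩
  let g : L →ₐ[K] K⟮f α⟯ := f.codRestrict (K⟮f α⟯).toSubalgebra hmem
  have hgs : Function.Surjective g := by
    rintro ⟨y, hy⟩
    have h1 : K⟮f α⟯ ≤ f.fieldRange := by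
      rw [IntermediateField.adjoin_simple_le_iff]
      exact ⟨α, rfl⟩
    obtain ⟨x, hx⟩ := h1 hy
    exact ⟨x, Subtype.ext hx⟩
  have h1 := badC_mono (AlgEquiv.ofBijective g ⟨g.injective, hgs⟩) ω a b S Φ Λ
  have h2 := hE2 (f α, S - 1)
  simp only [show S - 1 + 1 = S by omega] at h2
  exact h2.subset (Set.sdiff_subset_sdiff_left h1)

end Pool.Agent.N89.HL
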