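import Pool.Agent.N89.HL.Loc2
import Pool.Agent.N89.BD.Eng
import Pool.Agent.N89.GS.Sieve

/-! Project HL (helper89): the sieve for points over an extension `L` of `K`. -/

set_option autoImplicit false

namespace Pool.Agent.N89.HL

open MvPolynomial NumberField Pool.Agent.H901R3.MS Pool.Agent.W659 Pool.Agent.W659.SA
  Pool.Agent.N89.GS Pool.Agent.N89.BD Pool.Agent.N89.HX WeierstrassCurve

/-- the local sets of the sieve -/
def LocL (K L : Type) [Field K] [NumberField K] [Field L] [NumberField L] [Algebra K L]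
    {r s : ℕ} (a b : Fin r → ℤ) (Γ : Subgroup Lˣ)
    (J : Type) [Fintype J] {N : ℕ} (ω : Module.Basis (Fin N) ℤ (𝓞 K)) (δ : ℝ)
    (BadP : (∀ i, Pt (a i : L) (b i : L)) → (Fin s → Lˣ) → Set (J × Fin N → ℤ))
    (k : Type) [Field k] [Fintype k] (φ : 𝓞 L →+* k) (w : Place L k)
    (red : (∀ i, Pt (a i : L) (b i : L) → Pt (a i : k) (b i : k)))
    (F : Type) [Field F] [Fintype F] (φF : 𝓞 K →+* F) : Prop :=
  ∃ Bl : (∀ i, Pt (a i : k) (b i : k)) → (Fin s → k) → Set (J → F),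
        (∀ x y, (∀ l, y l ≠ 0) → (((Bl x y).ncard : ℕ) : ℝ) ≤
          (1 - δ) * (Fintype.card F : ℝ) ^ Fintype.card J) ∧
        ∀ (P : ∀ i, Pt (a i : L) (b i : L)) (u : Fin s → Lˣ), (∀ l, u l ∈ Γ) →
          (∀ l, (u l : L) ∈ w.A ∧ w.r (u l : L) ≠ 0) → ∀ c ∈ BadP P u,
          (fun i => φF (∑ j, c (i, j) • ω j)) ∈
            Bl (fun i => red i (P i)) (fun l => w.r (u l : L))

/-- the sieve inequality with given primes, abstract form, points over `L`, coefficients in `K` -/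
theorem sieveEL (K L : Type) [Field K] [NumberField K] [Field L] [NumberField L] [Algebra K L]
    {r s : ℕ} (a b : Fin r → ℤ)
    (hab : ∀ i, a i * b i = 0 ∧ (a i ≠ 0 ∨ b i ≠ 0)) (Γ : Subgroup Lˣ) (hΓ : Γ.FG)
    (J : Type) [Fintype J] (N : ℕ) (ω : Module.Basis (Fin N) ℤ (𝓞 K)) (δ : ℝ) (hδ0 : 0 < δ)
    (hδ1 : δ < 1) (p₁ : ℕ)
    (BadP : (∀ i, Pt (a i : L) (b i : L)) → (Fin s → Lˣ) → Set (J × Fin N → ℤ))
    (hloc : ∀ p : ℕ, p.Prime → p₁ ≤ p → 12 ∣ p + 1 → ∀ (k : Type) [Field k] [Fintype k],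
      (Fintype.card k = p ∨ Fintype.card k = p ^ 2) → ∀ φ : 𝓞 L →+* k,
      Function.Surjective φ → ∀ w : Place L k,
      (∀ x : 𝓞 L, (x : L) ∈ w.A ∧ w.r (x : L) = φ x) →
      ∀ red : (∀ i, Pt (a i : L) (b i : L) → Pt (a i : k) (b i : k)),
      (∀ i, IsRed w (a i) (b i) (red i)) →
      ∀ (F : Type) [Field F] [Fintype F] [Algebra F k] (φF : 𝓞 K →+* F),
      Function.Surjective φF → (algebraMap F k).comp φF = φ.comp (algebraMap (𝓞 K) (𝓞 L)) →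
      (Fintype.card F = p ∨ Fintype.card F = p ^ 2) →
      (Fintype.card k = Fintype.card F ∨ Fintype.card k = Fintype.card F ^ 2) →
      LocL K L a b Γ J ω δ BadP k φ w red F φF) :
    ∃ p₀ R : ℕ, ∀ (T : Finset ℕ) (M : ℕ), GoodT L p₀ T M → ∀ H : ℕ, ∏ p ∈ T, p ≤ 2 * H + 1 →
      (({c : J × Fin N → ℤ | (∀ i, |c i| ≤ (H : ℤ)) ∧ ∃ P u, (∀ l, u l ∈ Γ) ∧
        c ∈ BadP P u}.ncard : ℕ) : ℝ) ≤ (2 * (2 * (H : ℝ) + 1)) ^ Fintype.card (J × Fin N) *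
        ((M : ℝ) ^ R * (1 - δ) ^ T.card) := by
  classical
  obtain ⟨p₀, R, hcl⟩ := classesK L r s a b hab Γ hΓ
  refine ⟨p₀ + p₁ + 5 + ∑ i, (4 * a i ^ 3 + 27 * b i ^ 2).natAbs + 1, R, ?_⟩
  intro T M hT H hH
  obtain ⟨hM, hT⟩ := hT
  have hTp : ∀ p ∈ T, p.Prime := fun p hp => (hT p hp).1
  obtain ⟨Q, _, hQ, cls, rp, ru, hcls⟩ := hcl M hM
  have hdisc : ∀ i, 4 * a i ^ 3 + 27 * b i ^ 2 ≠ 0 := by
    intro i h
    obtain ⟨h1, h2⟩ := hab i
    rcases mul_eq_zero.1 h1 with h3 | h3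
    · rw [h3] at h h2
      have h4 : (b i) ^ 2 = 0 := by linarith
      rcases h2 with h2 | h2
      · exact h2 rfl
      · exact h2 (pow_eq_zero_iff two_ne_zero |>.1 h4)
    · rw [h3] at h h2
      have h4 : (a i) ^ 3 = 0 := by linarith
      rcases h2 with h2 | h2
      · exact h2 (pow_eq_zero_iff three_ne_zero |>.1 h4)
      · exact h2 rfl
  -- the local data
  have key : ∀ p : ℕ, p ∈ T → ∃ G0 : Q → Set (J × Fin N → ZMod p),
      (∀ x, (((G0 x).ncard : ℕ) : ℝ) ≤ (1 - δ) * (p : ℝ) ^ Fintype.card (J × Fin N)) ∧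
      ∀ (P : ∀ i, Pt (a i : L) (b i : L)) (u : Fin s → Lˣ), (∀ l, u l ∈ Γ) →
        ∀ c ∈ BadP P u, (fun s => (c s : ZMod p)) ∈ G0 (cls P u) := by
    intro p hp
    obtain ⟨hpp, hp0, h12, ⟨k, _, _, hcard, φ, hφ⟩, hL1, hL2⟩ := hT p hp
    haveI : Fact p.Prime := ⟨hpp⟩
    haveI : CharP k p := charP_of_card hpp hcard
    obtain ⟨w, hw⟩ := Pool.Agent.W496.FK.PLQ.main L k φ hφ
    have hdk : ∀ i, Disc (a i : k) (b i : k) := fun i => FD.disc_of (by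
      intro h
      have h5 : ((2 : ℕ) : k) = 0 := by exact_mod_cast h
      rw [CharP.cast_eq_zero_iff k p] at h5
      have := Nat.le_of_dvd (by norm_num) h5
      omega) (by
      intro h
      have h4 := (CharP.intCast_eq_zero_iff k p _).1 h
      have h5 := Nat.le_of_dvd (Int.natAbs_pos.2 (hdisc i)) (Int.natCast_dvd.1 h4)
      have h6 : (4 * a i ^ 3 + 27 * b i ^ 2).natAbs ≤
          ∑ i, (4 * a i ^ 3 + 27 * b i ^ 2).natAbs :=
        Finset.single_le_sum (f := fun i => (4 * a i ^ 3 + 27 * b i ^ 2).natAbs)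
          (fun _ _ => Nat.zero_le _) (Finset.mem_univ i)
      omega)
    choose red hred using fun i => t_R6 t_R1 t_R2 t_R3 t_R4 t_R5 L k w (a i) (b i) (hdk i)
    obtain ⟨F, _, _, _, φF, hφF, hφFk, hF1, hF2⟩ := exists_F hpp hcard
      (φ.comp (algebraMap (𝓞 K) (𝓞 L)))
    obtain ⟨Bl, hBl1, hBl2⟩ := hloc p hpp (by omega) h12 k hcard φ hφ w hw
      (fun i => red i) hred F φF hφF hφFk hF1 hF2
    have hrk := hcls p hpp (by omega) h12 hL1 hL2 k hcard w (fun x => (hw x).1)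
      (fun i => red i) hred
    have hG0 : ∀ x : Q, ∃ G0 : Set (J × Fin N → ZMod p),
        (((G0).ncard : ℕ) : ℝ) ≤ (1 - δ) * (p : ℝ) ^ Fintype.card (J × Fin N) ∧
        ((∀ l, w.r (ru x l : L) ≠ 0) → ∀ c : J × Fin N → ℤ,
          (fun i => φF (∑ j, c (i, j) • ω j)) ∈
            Bl (fun i => red i (rp x i)) (fun l => w.r (ru x l : L)) →
          (fun s => (c s : ZMod p)) ∈ G0) := by
      intro x
      by_cases hx : ∀ l, w.r (ru x l : L) ≠ 0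
      · obtain ⟨G0, hG1, hG2⟩ := CI.preI K J N ω p F hF1 φF hφF
          (Bl (fun i => red i (rp x i)) (fun l => w.r (ru x l : L))) (1 - δ) (hBl1 _ _ hx)
        exact ⟨G0, hG1, fun _ => hG2⟩
      · refine ⟨∅, ?_, fun h => absurd h hx⟩
        rw [Set.ncard_empty, Nat.cast_zero]
        have : 0 ≤ 1 - δ := by linarith
        positivity
    choose G0 hG1 hG2 using hG0
    refine ⟨G0, hG1, ?_⟩
    intro P u hu c hc
    obtain ⟨h1, h2⟩ := hrk P u hu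
    have h3 := hBl2 P u hu (fun l => ⟨(h2 l).1, (h2 l).2.1⟩) c hc
    have h4 : (fun i => red i (P i)) = fun i => red i (rp (cls P u) i) := funext h1
    have h5 : (fun l => w.r (u l : L)) = fun l => w.r (ru (cls P u) l : L) :=
      funext fun l => (h2 l).2.2
    rw [h4, h5] at h3
    exact hG2 _ (fun l => by rw [← (h2 l).2.2]; exact (h2 l).2.1) c h3
  choose G0 hG1 hG2 using key
  let G1 : Q → (p : ℕ) → Set (J × Fin N → ZMod p) := fun x p =>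
    {c | ∃ hp : p ∈ T, c ∈ G0 p hp x}
  have hGeq : ∀ x (p : ℕ) (hp : p ∈ T), G1 x p = G0 p hp x := by
    intro x p hp
    ext c
    exact ⟨fun ⟨_, h⟩ => h, fun h => ⟨hp, h⟩⟩
  have hB : ∀ x, (({c : J × Fin N → ℤ | c ∈ Box (J × Fin N) H ∧
      ∀ p ∈ T, (fun s => (c s : ZMod p)) ∈ G1 x p}.ncard : ℕ) : ℝ) ≤
      (2 * (2 * (H : ℝ) + 1)) ^ Fintype.card (J × Fin N) * (1 - δ) ^ T.card := fun x =>
    t_BOX (J × Fin N) T hTp (G1 x) (1 - δ) (by linarith) (by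
      intro p hp
      rw [hGeq x p hp]
      exact hG1 p hp x) H hH
  have hsub : {c : J × Fin N → ℤ | (∀ i, |c i| ≤ (H : ℤ)) ∧ ∃ P u, (∀ l, u l ∈ Γ) ∧
      c ∈ BadP P u} ⊆ ⋃ x ∈ (Finset.univ : Finset Q),
      {c : J × Fin N → ℤ | c ∈ Box (J × Fin N) H ∧
        ∀ p ∈ T, (fun s => (c s : ZMod p)) ∈ G1 x p} := by
    rintro c ⟨hc1, P, u, hu, hc⟩
    rw [Set.mem_iUnion₂]
    refine ⟨cls P u, Finset.mem_univ _, ?_, ?_⟩
    · unfold Box
      rw [Fintype.mem_piFinset]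
      intro s
      rw [Finset.mem_Icc]
      exact abs_le.1 (hc1 s)
    intro p hp
    rw [hGeq _ p hp]
    exact hG2 p hp P u hu c hc
  have hfin : (⋃ x ∈ (Finset.univ : Finset Q),
      {c : J × Fin N → ℤ | c ∈ Box (J × Fin N) H ∧
        ∀ p ∈ T, (fun s => (c s : ZMod p)) ∈ G1 x p}).Finite := by
    apply Set.Finite.subset (Box (J × Fin N) H).finite_toSet
    intro c hc
    rw [Set.mem_iUnion₂] at hc
    obtain ⟨_, _, hc, _⟩ := hc
    exact hc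
  have hcard : (((Finset.univ : Finset Q).card : ℕ) : ℝ) ≤ (M : ℝ) ^ R := by
    rw [Finset.card_univ]
    exact_mod_cast hQ
  have h1δ : 0 ≤ 1 - δ := by linarith
  set s₀ := Fintype.card (J × Fin N) with hs₀
  calc (({c : J × Fin N → ℤ | (∀ i, |c i| ≤ (H : ℤ)) ∧ ∃ P u, (∀ l, u l ∈ Γ) ∧
        c ∈ BadP P u}.ncard : ℕ) : ℝ)
      ≤ (((⋃ x ∈ (Finset.univ : Finset Q), {c : J × Fin N → ℤ |
          c ∈ Box (J × Fin N) H ∧
          ∀ p ∈ T, (fun s => (c s : ZMod p)) ∈ G1 x p}).ncard : ℕ) : ℝ) := by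
        exact_mod_cast Set.ncard_le_ncard hsub hfin
    _ ≤ ((∑ x ∈ (Finset.univ : Finset Q), {c : J × Fin N → ℤ |
          c ∈ Box (J × Fin N) H ∧
          ∀ p ∈ T, (fun s => (c s : ZMod p)) ∈ G1 x p}.ncard : ℕ) : ℝ) := by
        exact_mod_cast Finset.set_ncard_biUnion_le _ _
    _ = ∑ x ∈ (Finset.univ : Finset Q), (({c : J × Fin N → ℤ |
          c ∈ Box (J × Fin N) H ∧
          ∀ p ∈ T, (fun s => (c s : ZMod p)) ∈ G1 x p}.ncard : ℕ) : ℝ) := by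
        push_cast
        rfl
    _ ≤ ∑ x ∈ (Finset.univ : Finset Q), (2 * (2 * (H : ℝ) + 1)) ^ s₀ *
          (1 - δ) ^ T.card := Finset.sum_le_sum fun x _ => hB x
    _ = (((Finset.univ : Finset Q).card : ℕ) : ℝ) * ((2 * (2 * (H : ℝ) + 1)) ^ s₀ *
          (1 - δ) ^ T.card) := by rw [Finset.sum_const, nsmul_eq_mul]
    _ ≤ (M : ℝ) ^ R * ((2 * (2 * (H : ℝ) + 1)) ^ s₀ *
          (1 - δ) ^ T.card) := mul_le_mul_of_nonneg_right hcard (by positivity)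
    _ = (2 * (2 * (H : ℝ) + 1)) ^ s₀ * ((M : ℝ) ^ R *
          (1 - δ) ^ T.card) := by ring


end Pool.Agent.N89.HL
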