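import Pool.Agent.N89.HL.Stm

/-! Project HL (helper89): a polynomial whose Galois group contains the alternating group is
irreducible. -/

set_option autoImplicit false

namespace Pool.Agent.N89.HL

open Polynomial

theorem even_perm {α : Type} [Fintype α] [DecidableEq α] (h : 3 ≤ Fintype.card α) (x y : α) :
    ∃ π : Equiv.Perm α, Equiv.Perm.sign π = 1 ∧ π x = y := by
  by_cases hxy : x = y
  · exact ⟨1, by simp, by simp [hxy]⟩
  · obtain ⟨z, hz⟩ : ∃ z : α, z ∉ ({x, y} : Finset α) := by
      by_contra hcon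
      push Not at hcon
      have h1 : (Finset.univ : Finset α) ⊆ {x, y} := fun z _ => hcon z
      have h2 := Finset.card_le_card h1
      rw [Finset.card_univ] at h2
      have h3 : ({x, y} : Finset α).card ≤ 2 := Finset.card_le_two
      omega
    rw [Finset.mem_insert, Finset.mem_singleton, not_or] at hz
    refine ⟨Equiv.swap x z * Equiv.swap x y, ?_, ?_⟩
    · rw [Equiv.Perm.sign_mul, Equiv.Perm.sign_swap (Ne.symm hz.1), Equiv.Perm.sign_swap hxy]
      simp
    · rw [Equiv.Perm.mul_apply, Equiv.swap_apply_left,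
        Equiv.swap_apply_of_ne_of_ne (Ne.symm hxy) (Ne.symm hz.2)]

theorem irreducible_of_altGal {K : Type} [Field K] {e : ℕ} (he : 3 ≤ e) {p : K[X]}
    (h : AltGal e p) : Irreducible p := by
  classical
  obtain ⟨h1, h2, h3⟩ := h
  have hp0 : p ≠ 0 := by
    rintro rfl
    rw [natDegree_zero] at h1
    omega
  have hcard : Fintype.card (p.rootSet (AlgebraicClosure K)) = e := by
    rw [card_rootSet_eq_natDegree h2 (IsAlgClosed.splits _), h1]
  have hcard' : (p.rootSet (AlgebraicClosure K)).ncard = e := by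
    rw [← Nat.card_coe_set_eq, Nat.card_eq_fintype_card, hcard]
  obtain ⟨⟨x, hx⟩⟩ : Nonempty (p.rootSet (AlgebraicClosure K)) := by
    rw [← Fintype.card_pos_iff]
    omega
  have hxi : IsIntegral K x := Algebra.IsIntegral.isIntegral x
  have hxp : aeval x p = 0 := (mem_rootSet.1 hx).2
  have hdvd : minpoly K x ∣ p := minpoly.dvd K x hxp
  have hm0 : minpoly K x ≠ 0 := minpoly.ne_zero hxi
  have hsub : p.rootSet (AlgebraicClosure K) ⊆ (minpoly K x).rootSet (AlgebraicClosure K) := by
    intro y hy
    obtain ⟨π, hπ, hπx⟩ := even_perm (by omega : 3 ≤ Fintype.card (p.rootSet (AlgebraicClosure K)))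
      ⟨x, hx⟩ ⟨y, hy⟩
    obtain ⟨τ, hτ⟩ := h3 π (by convert hπ)
    have h4 := hτ ⟨x, hx⟩
    rw [hπx] at h4
    rw [mem_rootSet]
    refine ⟨hm0, ?_⟩
    have h5 : aeval (τ x) (minpoly K x) = τ (aeval x (minpoly K x)) :=
      aeval_algHom_apply (τ : AlgebraicClosure K →ₐ[K] AlgebraicClosure K) x _
    rw [minpoly.aeval, map_zero] at h5
    have h6 : τ x = y := h4
    rw [h6] at h5
    exact h5
  have hle : e ≤ (minpoly K x).natDegree := by
    rw [← hcard']
    refine (Set.ncard_le_ncard hsub (rootSet_finite _ _)).trans ?_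
    exact ncard_rootSet_le _ _
  have hdeg : p.natDegree ≤ (minpoly K x).natDegree := by rw [h1]; exact hle
  have hassoc : Associated (minpoly K x) p := by
    obtain ⟨q, hq⟩ := hdvd
    have hq0 : q ≠ 0 := by
      rintro rfl
      rw [mul_zero] at hq
      exact hp0 hq
    have h6 : p.natDegree = (minpoly K x).natDegree + q.natDegree := by
      conv_lhs => rw [hq]
      exact natDegree_mul hm0 hq0
    have h7 : q.natDegree = 0 := by omega
    have h8 : IsUnit q := by
      rw [eq_C_of_natDegree_eq_zero h7] at hq0 ⊢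
      exact isUnit_C.2 (isUnit_iff_ne_zero.2 (fun h => hq0 (by rw [h, C_0])))
    exact ⟨h8.unit, by rw [IsUnit.unit_spec]; exact hq.symm⟩
  exact hassoc.irreducible (minpoly.irreducible hxi)

end Pool.Agent.N89.HL
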