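import Pool.Agent.N89.HL.Stm
import Pool.Agent.N89.GS.Dens2
import Pool.Agent.N89.HX.Asm3

/-! Project HL (helper89): the local theorem. -/

set_option autoImplicit false

namespace Pool.Agent.N89.HL

open MvPolynomial NumberField Pool.Agent.H901R3.MS Pool.Agent.W659 Pool.Agent.W659.SA
  Pool.Agent.N89.GS Pool.Agent.N89.BD Pool.Agent.N89.HX WeierstrassCurve

/-- the linear system `Λ` has no base points and separates any two different points of `G` -/
def Sep2 {O k : Type} [CommRing O] [Field k] (φ : O →+* k) {r s : ℕ} (a b : Fin r → ℤ)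
    {ι : Type} (Λ : ι → Pol O r s 0) : Prop :=
  (∀ (V : Fin r → Fin 3 → k) (u : Fin s → k), OnB a b V u → ∃ x, vl φ (Λ x) V u Fin.elim0 ≠ 0) ∧
  ∀ (V V' : Fin r → Fin 3 → k) (u u' : Fin s → k), OnB a b V u → OnB a b V' u' →
    ¬ SameB V u V' u' → LinearIndependent k
      ![fun x => vl φ (Λ x) V u Fin.elim0, fun x => vl φ (Λ x) V' u' Fin.elim0]

/-- the coefficients of the polynomial over the point `(V, u)` -/
noncomputable def zf {O F k : Type} [CommRing O] [Field F] [Field k] [Algebra F k] (ψ : O →+* k)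
    {r s e : ℕ} (Φ : Fin (e + 1) → Pol O r s 0) {ι : Fin (e + 1) → Type} [∀ i, Fintype (ι i)]
    (Λ : (i : Fin (e + 1)) → ι i → Pol O r s 0) (V : Fin r → Fin 3 → k) (u : Fin s → k)
    (c : (Σ i, ι i) → F) : Fin (e + 1) → k := fun i =>
  vl ψ (Φ i) V u Fin.elim0 + ∑ x, algebraMap F k (c ⟨i, x⟩) * vl ψ (Λ i x) V u Fin.elim0

theorem cnt_pre {C Y : Type} [Finite C] [Finite Y] (z : C → Y) (M N : ℕ)
    (hf : ∀ y, {c | z c = y}.ncard * M = N) (Z : Set Y) :
    {c | z c ∈ Z}.ncard * M = Z.ncard * N := by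
  classical
  have := Fintype.ofFinite C
  have := Fintype.ofFinite Y
  have h1 : {c | z c ∈ Z}.ncard = ∑ y ∈ Z.toFinset, {c | z c = y}.ncard := by
    have h2 : {c | z c ∈ Z} = ((Finset.univ.filter fun c => z c ∈ Z : Finset C) : Set C) := by
      ext c
      simp
    have h3 : ∀ y, {c | z c = y}.ncard = (Finset.univ.filter fun c => z c = y).card := by
      intro y
      rw [← Set.ncard_coe_finset]
      congr 1
      ext c
      simp
    rw [h2, Set.ncard_coe_finset, Finset.card_eq_sum_card_fiberwise (f := z) (t := Z.toFinset)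
      (by
        intro c hc
        simpa using hc)]
    refine Finset.sum_congr rfl fun y hy => ?_
    rw [h3, Finset.filter_filter]
    congr 1
    ext c
    simp only [Finset.mem_filter, Finset.mem_univ, true_and]
    constructor
    · exact fun h => h.2
    · rintro rfl
      exact ⟨by simpa using hy, rfl⟩
  rw [h1, Finset.sum_mul, Finset.sum_congr rfl (fun y _ => hf y), Finset.sum_const, smul_eq_mul,
    Set.ncard_eq_toFinset_card']

theorem fib_pi {F k : Type} [Field F] [Fintype F] [Field k] [Algebra F k] {e : ℕ}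
    {ι : Fin e → Type} [∀ i, Fintype (ι i)] (w : (i : Fin e) → ι i → k) (y : Fin e → k) (f : ℕ)
    (h : ∀ i, {c : ι i → F | ∑ x, algebraMap F k (c x) * w i x = y i}.ncard *
      Fintype.card F ^ f = Fintype.card F ^ Fintype.card (ι i)) :
    {c : (Σ i, ι i) → F | ∀ i, ∑ x, algebraMap F k (c ⟨i, x⟩) * w i x = y i}.ncard *
      Fintype.card F ^ (f * e) = Fintype.card F ^ Fintype.card (Σ i, ι i) := by
  have h1 := ncard_pi (F := F) (fun i => {c : ι i → F | ∑ x, algebraMap F k (c x) * w i x = y i})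
  have h2 : {c : (Σ i, ι i) → F | ∀ i, ∑ x, algebraMap F k (c ⟨i, x⟩) * w i x = y i} =
      {c : (Σ i, ι i) → F | ∀ j, (fun x => c ⟨j, x⟩) ∈
        {c : ι j → F | ∑ x, algebraMap F k (c x) * w j x = y j}} := rfl
  rw [h2, h1, Fintype.card_sigma, ← Finset.prod_pow_eq_pow_sum, ← Finset.prod_congr rfl
    (fun i _ => h i), Finset.prod_mul_distrib, Finset.prod_const, Finset.card_univ,
    Fintype.card_fin, ← pow_mul]

/-- the number of the `c` with coefficients in a given set -/
theorem cnt_zf {O F k : Type} [CommRing O] [Field F] [Fintype F] [Field k] [Fintype k]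
    [Algebra F k] (ψ : O →+* k)
    {r s e : ℕ} (Φ : Fin (e + 1) → Pol O r s 0) {ι : Fin (e + 1) → Type} [∀ i, Fintype (ι i)]
    (Λ : (i : Fin (e + 1)) → ι i → Pol O r s 0) (V : Fin r → Fin 3 → k) (u : Fin s → k) (f : ℕ)
    (hk : Fintype.card k = Fintype.card F ^ f)
    (h : ∀ i (y : k), {c : ι i → F | ∑ x, algebraMap F k (c x) * vl ψ (Λ i x) V u Fin.elim0 = y}.ncard *
      Fintype.card F ^ f = Fintype.card F ^ Fintype.card (ι i)) (Z : Set (Fin (e + 1) → k)) (D : ℕ)
    (hZ : Fintype.card k ^ (e + 1) ≤ D * Z.ncard) :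
    Fintype.card F ^ Fintype.card (Σ i, ι i) ≤ D *
      {c : (Σ i, ι i) → F | zf ψ Φ Λ V u c ∈ Z}.ncard := by
  have h1 := cnt_pre (C := (Σ i, ι i) → F) (zf ψ Φ Λ V u) (Fintype.card F ^ (f * (e + 1)))
    (Fintype.card F ^ Fintype.card (Σ i, ι i)) (fun y => by
      have h2 := fib_pi (F := F) (fun i x => vl ψ (Λ i x) V u Fin.elim0)
        (fun i => y i - vl ψ (Φ i) V u Fin.elim0) f (fun i => h i _)
      rw [← h2]
      congr 2
      ext c
      simp only [Set.mem_ofPred_eq]
      constructor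
      · rintro rfl i
        simp [zf]
      · intro h
        funext i
        rw [zf, h i]
        ring) Z
  have h3 : (0 : ℕ) < Fintype.card F ^ (f * (e + 1)) := pow_pos Fintype.card_pos _
  have h4 : Fintype.card k ^ (e + 1) = Fintype.card F ^ (f * (e + 1)) := by rw [hk, pow_mul]
  rw [h4] at hZ
  have h5 : Fintype.card F ^ (f * (e + 1)) * Fintype.card F ^ Fintype.card (Σ i, ι i) ≤
      Fintype.card F ^ (f * (e + 1)) * (D * {c : (Σ i, ι i) → F | zf ψ Φ Λ V u c ∈ Z}.ncard) := by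
    calc Fintype.card F ^ (f * (e + 1)) * Fintype.card F ^ Fintype.card (Σ i, ι i) ≤
        D * Z.ncard * Fintype.card F ^ Fintype.card (Σ i, ι i) := Nat.mul_le_mul_right _ hZ
      _ = D * ({c : (Σ i, ι i) → F | zf ψ Φ Λ V u c ∈ Z}.ncard * Fintype.card F ^ (f * (e + 1))) := by
        rw [h1]
        ring
      _ = _ := by ring
  exact Nat.le_of_mul_le_mul_left h5 h3

theorem hasType_smul {k Ω : Type} [Field k] [Fintype k] [Field Ω] [Algebra k Ω] {e : ℕ}
    {z : Fin (e + 1) → k} {σ : Equiv.Perm (Fin e)} (c : k) (hc : c ≠ 0) (h : HasType Ω z σ) :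
    HasType Ω (fun i => c * z i) σ := by
  obtain ⟨x, hx, hσ⟩ := h
  exact ⟨x, roots_smul _ _ x c hc hx, hσ⟩

theorem hasType_sq {F k Ω : Type} [Field F] [Fintype F] [Field k] [Fintype k] [Field Ω]
    [Algebra F k] [Algebra k Ω] [Algebra F Ω] [IsScalarTower F k Ω]
    (hk : Fintype.card k = Fintype.card F ^ 2) {e : ℕ}
    {z : Fin (e + 1) → F} {σ : Equiv.Perm (Fin e)} (h : HasType Ω z σ) :
    HasType Ω (fun i => algebraMap F k (z i)) (σ ^ 2) := by
  obtain ⟨x, ⟨h1, h2, h3⟩, hσ⟩ := h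
  refine ⟨x, ⟨(map_ne_zero _).2 h1, h2, ?_⟩, fun i => ?_⟩
  · have h4 : pol (fun i => algebraMap F k (z i)) = (pol z).map (algebraMap F k) := by
      unfold pol
      rw [Polynomial.map_sum]
      refine Finset.sum_congr rfl fun i _ => ?_
      simp
    rw [h4, Polynomial.map_map, ← IsScalarTower.algebraMap_eq, h3,
      ← IsScalarTower.algebraMap_apply]
  · rw [hk, pow_two, pow_mul, hσ, hσ, pow_two]
    rfl

end Pool.Agent.N89.HL
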