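import Pool.Agent.N89.HL.Loc

/-! Project HL (helper89): the local theorem, second part. -/

set_option autoImplicit false

namespace Pool.Agent.N89.HL

open MvPolynomial NumberField Pool.Agent.H901R3.MS Pool.Agent.W659 Pool.Agent.W659.SA
  Pool.Agent.N89.GS Pool.Agent.N89.BD Pool.Agent.N89.HX WeierstrassCurve

theorem zf_scale {O F k : Type} [CommRing O] [Field F] [Field k] [Algebra F k] (ψ : O →+* k)
    {r s e : ℕ} (Φ : Fin (e + 1) → Pol O r s 0) {ι : Fin (e + 1) → Type} [∀ i, Fintype (ι i)]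
    (Λ : (i : Fin (e + 1)) → ι i → Pol O r s 0) (d : Fin r → ℕ) (hdΦ : ∀ i, MHomog (Φ i) d)
    (hdΛ : ∀ i x, MHomog (Λ i x) d) (V : Fin r → Fin 3 → k) (u : Fin s → k) (c : Fin r → k)
    (t : (Σ i, ι i) → F) :
    zf ψ Φ Λ (fun i j => c i * V i j) u t = fun i => (∏ i, c i ^ d i) * zf ψ Φ Λ V u t i := by
  funext i
  unfold zf
  rw [vl_scale _ (Φ i) d (hdΦ i), mul_add, Finset.mul_sum]
  congr 1
  refine Finset.sum_congr rfl fun x _ => ?_
  rw [vl_scale _ (Λ i x) d (hdΛ i x)]
  ring

theorem one_cnt {F k : Type} [Field F] [Fintype F] [Field k] [Fintype k]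
    [Algebra F k] (hLIN1 : S_LIN1) (hFk : Fintype.card k = Fintype.card F) {ι : Type} [Fintype ι]
    (w : ι → k) (y : k) (hw : ∃ x, w x ≠ 0) :
    {c : ι → F | ∑ x, algebraMap F k (c x) * w x = y}.ncard *
      Fintype.card F ^ 1 = Fintype.card F ^ Fintype.card ι := by
  have h := hcnt_one hLIN1 hFk (α := Unit) {()} (fun _ => w) (fun _ => y) (by
    refine LinearIndependent.of_subsingleton (⟨(), by simp⟩ : {x // x ∈ ({()} : Finset Unit)}) ?_
    intro h
    obtain ⟨x, hx⟩ := hw
    exact hx (congrFun h x))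
  simpa using h

theorem two_cnt {F k : Type} [Field F] [Fintype F] [Field k] [Fintype k]
    [Algebra F k] (hLIN : S_LIN) (σ : k →+* k) (hFk : Fintype.card k = Fintype.card F ^ 2)
    (hσ : ∀ x, σ x = x ^ Fintype.card F) {ι : Type} [Fintype ι]
    (w : ι → k) (y : k) (hw : LinearIndependent k ![w, fun x => σ (w x)]) :
    {c : ι → F | ∑ x, algebraMap F k (c x) * w x = y}.ncard *
      Fintype.card F ^ 2 = Fintype.card F ^ Fintype.card ι := by
  classical
  have h := hcnt_two hLIN σ hFk hσ (α := Unit) {()} (fun _ => False) (fun _ => w) (fun _ => y)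
    (fun _ _ h => h.elim) (by
      have hinj : Function.Injective (Sum.elim (fun _ => 0) (fun _ => 1) :
          {T : Unit // T ∈ ({()} : Finset Unit)} ⊕ {T : Unit // T ∈ ({()} : Finset Unit) ∧ ¬ False}
            → Fin 2) := by
        rintro (a | a) (b | b) hab
        · exact congrArg Sum.inl (Subtype.ext rfl)
        · simp at hab
        · simp at hab
        · exact congrArg Sum.inr (Subtype.ext rfl)
      have h1 := hw.comp _ hinj
      convert h1 using 1
      funext T
      rcases T with T | T <;> rfl)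
  simpa using h

/-- the local theorem -/
theorem localHL (hLIN : S_LIN) (hLIN1 : S_LIN1) {e q₀ : ℕ}
    (hPOC : ∀ (k Ω : Type) [Field k] [Fintype k] [Field Ω]
      [IsAlgClosed Ω] [Algebra k Ω] [Algebra.IsAlgebraic k Ω], q₀ ≤ Fintype.card k →
      ∀ σ : Equiv.Perm (Fin e), Fintype.card k ^ (e + 1) ≤
        2 * e.factorial * {z : Fin (e + 1) → k | HasType Ω z σ}.ncard)
    {O F k Ω : Type} [CommRing O] [Field F] [Fintype F] [Field k] [Fintype k] [Field Ω]
    [IsAlgClosed Ω] [Algebra F k] [Algebra k Ω] [Algebra.IsAlgebraic k Ω]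
    (hcard : Fintype.card k = Fintype.card F ∨ Fintype.card k = Fintype.card F ^ 2)
    (hq₀ : q₀ ≤ Fintype.card F) (φ : O →+* F)
    {r s : ℕ} (a b : Fin r → ℤ) (Φ : Fin (e + 1) → Pol O r s 0) {ι : Fin (e + 1) → Type}
    [∀ i, Fintype (ι i)] (Λ : (i : Fin (e + 1)) → ι i → Pol O r s 0) (d : Fin r → ℕ)
    (hdΦ : ∀ i, MHomog (Φ i) d) (hdΛ : ∀ i x, MHomog (Λ i x) d)
    (hsep : ∀ i, Sep2 ((algebraMap F k).comp φ) a b (Λ i)) (V : Fin r → Fin 3 → k)
    (u : Fin s → k) (hV : OnB a b V u) (σ' : Equiv.Perm (Fin e)) :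
    Fintype.card F ^ Fintype.card (Σ i, ι i) ≤ 2 * e.factorial *
      {c : (Σ i, ι i) → F | HasType Ω (zf ((algebraMap F k).comp φ) Φ Λ V u c) (σ' ^ 2)}.ncard := by
  classical
  suffices h : ∀ V : Fin r → Fin 3 → k, (∀ i, Nrm (V i)) → OnB a b V u →
      Fintype.card F ^ Fintype.card (Σ i, ι i) ≤ 2 * e.factorial *
      {c : (Σ i, ι i) → F | HasType Ω (zf ((algebraMap F k).comp φ) Φ Λ V u c) (σ' ^ 2)}.ncard by
    choose c hc0 hcN using fun i => exists_nrm (V i) (hV.1 i).1
    refine (h _ hcN ⟨fun i => onE_scale (hV.1 i) (hc0 i), hV.2⟩).trans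
      (Nat.mul_le_mul_left _ (Set.ncard_le_ncard ?_ (Set.toFinite _)))
    intro t ht
    have hm : (∏ i, c i ^ d i) ≠ 0 := Finset.prod_ne_zero_iff.2 fun i _ => pow_ne_zero _ (hc0 i)
    rw [Set.mem_ofPred_eq, zf_scale _ Φ Λ d hdΦ hdΛ] at ht
    have h1 := hasType_smul (∏ i, c i ^ d i)⁻¹ (inv_ne_zero hm) ht
    rw [Set.mem_ofPred_eq]
    convert h1 using 1
    funext i
    rw [← mul_assoc, inv_mul_cancel₀ hm, one_mul]
  clear hV V
  intro V hVN hV
  set ψ : O →+* k := (algebraMap F k).comp φ with hψ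
  have hF2 : 2 ≤ Fintype.card F := Fintype.one_lt_card
  rcases hcard with hA | hA
  · -- the case `k = F`
    have h1 := hPOC k Ω (by rw [hA]; exact hq₀) (σ' ^ 2)
    exact cnt_zf ψ Φ Λ V u 1 (by rw [pow_one]; exact hA)
      (fun i y => one_cnt hLIN1 hA _ y ((hsep i).1 V u hV)) {z | HasType Ω z (σ' ^ 2)} _ h1
  · -- the case of a quadratic extension
    set σ : k →+* k := ((FiniteField.frobeniusAlgHom F k : k →ₐ[F] k) : k →+* k) with hσ
    have hσx : ∀ x, σ x = x ^ Fintype.card F := fun x => rfl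
    have hσF : ∀ z : F, σ (algebraMap F k z) = algebraMap F k z := fun z =>
      (FiniteField.frobeniusAlgHom F k).commutes z
    have hσψ : σ.comp ψ = ψ := by
      ext x
      rw [RingHom.comp_apply, hψ, RingHom.comp_apply, hσF]
    have hel : ∀ t : Fin 0 → k, t = Fin.elim0 := fun t => Subsingleton.elim _ _
    have hσvl : ∀ (P : Pol O r s 0) (V : Fin r → Fin 3 → k) (u : Fin s → k),
        σ (vl ψ P V u Fin.elim0) = vl ψ P (fun i j => σ (V i j)) (fun l => σ (u l)) Fin.elim0 := by
      intro P V u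
      rw [vl_map ψ σ P V u, hσψ, hel (fun i => σ (Fin.elim0 i))]
    by_cases hst : (∀ i x, σ (V i x) = V i x) ∧ ∀ l, σ (u l) = u l
    · -- the point of `G` is rational over `F`
      choose VF hVF using fun i x => mem_of_pow (F := F) ((hσx _).symm.trans (hst.1 i x))
      choose uF huF using fun l => mem_of_pow (F := F) ((hσx _).symm.trans (hst.2 l))
      have hBF : OnB a b VF uF := by
        refine ⟨fun i => onE_of_map (algebraMap F k) ?_, fun l h => hV.2 l ?_⟩
        · simp only [hVF]
          exact hV.1 i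
        · rw [← huF l, h, map_zero]
      have hval : ∀ (P : Pol O r s 0),
          vl ψ P V u Fin.elim0 = algebraMap F k (vl φ P VF uF Fin.elim0) := by
        intro P
        rw [vl_map φ (algebraMap F k) P VF uF, hel (fun i => algebraMap F k (Fin.elim0 i))]
        congr 1
        · funext i x
          exact (hVF i x).symm
        · funext l
          exact (huF l).symm
      have hz : ∀ c : (Σ i, ι i) → F, zf ψ Φ Λ V u c =
          fun i => algebraMap F k (zf (F := F) (k := F) φ Φ Λ VF uF c i) := by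
        intro c
        funext i
        unfold zf
        rw [map_add, map_sum, hval]
        congr 1
        refine Finset.sum_congr rfl fun x _ => ?_
        rw [map_mul, hval]
        rfl
      let iFΩ : Algebra F Ω := ((algebraMap k Ω).comp (algebraMap F k)).toAlgebra
      have hst' : IsScalarTower F k Ω := IsScalarTower.of_algebraMap_eq fun _ => rfl
      have hfin : Algebra.IsAlgebraic F k := Algebra.IsAlgebraic.of_finite F k
      have halg : Algebra.IsAlgebraic F Ω := Algebra.IsAlgebraic.trans F k Ω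
      have h1 := hPOC F Ω hq₀ σ'
      have h2 := cnt_zf (F := F) (k := F) φ Φ Λ VF uF 1 (by rw [pow_one])
        (fun i y => one_cnt hLIN1 rfl _ y (by
          obtain ⟨x, hx⟩ := (hsep i).1 V u hV
          refine ⟨x, fun h0 => hx ?_⟩
          rw [hval, h0, map_zero])) {z | HasType Ω z σ'} _ h1
      refine h2.trans (Nat.mul_le_mul_left _ (Set.ncard_le_ncard ?_ (Set.toFinite _)))
      intro c hc
      rw [Set.mem_ofPred_eq, hz c]
      exact hasType_sq hA hc
    · -- the point of `G` is not rational over `F`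
      have hVσ : OnB a b (fun i j => σ (V i j)) (fun l => σ (u l)) :=
        ⟨fun i => onE_map σ (hV.1 i), fun l h => hV.2 l (σ.injective (h.trans (map_zero σ).symm))⟩
      have hns : ¬ SameB V u (fun i j => σ (V i j)) (fun l => σ (u l)) := by
        rintro ⟨h1, h2⟩
        apply hst
        refine ⟨fun i x => ?_, fun l => (congrFun h2 l).symm⟩
        obtain ⟨c, hc⟩ := h1 i
        exact (congrFun ((hVN i).eq ((hVN i).map σ) hc) x).symm
      have h1 := hPOC k Ω (by
        rw [hA]
        nlinarith) (σ' ^ 2)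
      refine cnt_zf ψ Φ Λ V u 2 hA (fun i y => two_cnt hLIN σ hA hσx _ y ?_)
        {z | HasType Ω z (σ' ^ 2)} _ h1
      have h2 := (hsep i).2 V _ u _ hV hVσ hns
      convert h2 using 3
      funext x
      exact hσvl _ _ _

end Pool.Agent.N89.HL
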