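import Pool.Agent.N89.HL.Eng
import Pool.Agent.N89.BD.Main
import Pool.Agent.N89.HX.Uni

/-! Project HL (helper89): the main theorem. -/

set_option autoImplicit false

namespace Pool.Agent.N89.HL

open MvPolynomial NumberField Pool.Agent.H901R3.MS Pool.Agent.W659 Pool.Agent.W659.SA
  Pool.Agent.N89.GS Pool.Agent.N89.BD Pool.Agent.N89.HX WeierstrassCurve

/-- the coefficients of the polynomial over the point `(V, u)`, for parameters in `O` -/
noncomputable def zc {O A : Type} [CommRing O] [CommRing A] (φ : O →+* A)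
    {r s e : ℕ} (Φ : Fin (e + 1) → Pol O r s 0) {ι : Fin (e + 1) → Type} [∀ i, Fintype (ι i)]
    (Λ : (i : Fin (e + 1)) → ι i → Pol O r s 0) (V : Fin r → Fin 3 → A) (u : Fin s → A)
    (t : (Σ i, ι i) → O) : Fin (e + 1) → A := fun i =>
  vl φ (Φ i) V u Fin.elim0 + ∑ x, φ (t ⟨i, x⟩) * vl φ (Λ i x) V u Fin.elim0

/-- the vector of elements of `𝓞 K` given by the coordinates `c` -/
noncomputable def vecJ {K : Type} [Field K] [NumberField K] {N : ℕ} {J : Type}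
    (ω : Module.Basis (Fin N) ℤ (𝓞 K)) (c : J × Fin N → ℤ) (i : J) : 𝓞 K :=
  ∑ j, c (i, j) • ω j

/-- automorphisms realise all the types of squares on the roots -/
def Sqs {K : Type} [Field K] {e : ℕ} (f : Fin (e + 1) → K) : Prop :=
  ∀ σ : Equiv.Perm (Fin e), ∃ (x : Fin e → AlgebraicClosure K)
    (τ : AlgebraicClosure K ≃ₐ[K] AlgebraicClosure K),
    Roots (algebraMap K (AlgebraicClosure K)) f x ∧ ∀ i, τ (x i) = x ((σ ^ 2) i)

/-- the `c` such that for some `S`-integral point of `G` over `L` not all the types of squares are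
realised -/
def BadC {K L : Type} [Field K] [NumberField K] [Field L] [Algebra K L] {N r s e : ℕ}
    (ω : Module.Basis (Fin N) ℤ (𝓞 K)) (a b : Fin r → ℤ) (Φ : Fin (e + 1) → Pol (𝓞 K) r s 0)
    {ι : Fin (e + 1) → Type} [∀ i, Fintype (ι i)] (Λ : (i : Fin (e + 1)) → ι i → Pol (𝓞 K) r s 0)
    (Γ : Subgroup Lˣ) : Set ((Σ i, ι i) × Fin N → ℤ) :=
  {c | ∃ (V : Fin r → Fin 3 → L) (u : Fin s → Lˣ), (∀ i, FD.OnE (a i) (b i) (V i)) ∧
    (∀ l, u l ∈ Γ) ∧ ¬ Sqs (zc (toL K L) Φ Λ V (fun l => ((u l : Lˣ) : L)) (vecJ ω c))}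

/-- the `c` such that for no good place the Frobenius acts on the roots like `σ ^ 2` -/
def BadT2 {K L : Type} [Field K] [NumberField K] [Field L] [NumberField L] [Algebra K L]
    {N r s e : ℕ} (ω : Module.Basis (Fin N) ℤ (𝓞 K)) (a b : Fin r → ℤ)
    (Φ : Fin (e + 1) → Pol (𝓞 K) r s 0)
    {ι : Fin (e + 1) → Type} [∀ i, Fintype (ι i)] (Λ : (i : Fin (e + 1)) → ι i → Pol (𝓞 K) r s 0)
    (p₁ : ℕ) (σ : Equiv.Perm (Fin e))
    (P : ∀ i, Pt (a i : L) (b i : L)) (u : Fin s → Lˣ) : Set ((Σ i, ι i) × Fin N → ℤ) :=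
  {c | ∀ p : ℕ, p.Prime → p₁ ≤ p → ∀ (k : Type) [Field k] [Fintype k],
    (Fintype.card k = p ∨ Fintype.card k = p ^ 2) → ∀ φ : 𝓞 L →+* k,
    Function.Surjective φ → ∀ w : Place L k,
    (∀ x : 𝓞 L, (x : L) ∈ w.A ∧ w.r (x : L) = φ x) →
    ∀ red : (∀ i, Pt (a i : L) (b i : L) → Pt (a i : k) (b i : k)),
    (∀ i, IsRed w (a i) (b i) (red i)) →
    ∀ (Ω : Type) [Field Ω] [IsAlgClosed Ω] [Algebra k Ω] [Algebra.IsAlgebraic k Ω],
      ¬ HasType Ω (zc (φ.comp (algebraMap (𝓞 K) (𝓞 L))) Φ Λ (fun i => rep (red i (P i)))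
        (fun l => w.r (u l : L)) (vecJ ω c)) (σ ^ 2)}

theorem zf_eq_zc {O F k : Type} [CommRing O] [Field F] [Field k] [Algebra F k] (φF : O →+* F)
    (ψ : O →+* k) (hψ : (algebraMap F k).comp φF = ψ)
    {r s e : ℕ} (Φ : Fin (e + 1) → Pol O r s 0) {ι : Fin (e + 1) → Type} [∀ i, Fintype (ι i)]
    (Λ : (i : Fin (e + 1)) → ι i → Pol O r s 0) (V : Fin r → Fin 3 → k) (u : Fin s → k)
    (t : (Σ i, ι i) → O) : zf ((algebraMap F k).comp φF) Φ Λ V u (fun j => φF (t j)) =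
      zc ψ Φ Λ V u t := by
  subst hψ
  rfl

/-- the local sets exist -/
theorem locL_of {K L : Type} [Field K] [NumberField K] [Field L] [NumberField L] [Algebra K L]
    {N r s e : ℕ} (ω : Module.Basis (Fin N) ℤ (𝓞 K)) (a b : Fin r → ℤ)
    (Φ : Fin (e + 1) → Pol (𝓞 K) r s 0)
    {ι : Fin (e + 1) → Type} [∀ i, Fintype (ι i)] (Λ : (i : Fin (e + 1)) → ι i → Pol (𝓞 K) r s 0)
    (Γ : Subgroup Lˣ) (p₁ : ℕ) (σ : Equiv.Perm (Fin e))
    {p : ℕ} (hpp : p.Prime) (hp : p₁ ≤ p)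
    {k : Type} [Field k] [Fintype k] (hcard : Fintype.card k = p ∨ Fintype.card k = p ^ 2)
    {φ : 𝓞 L →+* k} (hφ : Function.Surjective φ)
    {w : Place L k} (hw : ∀ x : 𝓞 L, (x : L) ∈ w.A ∧ w.r (x : L) = φ x)
    {red : ∀ i, Pt (a i : L) (b i : L) → Pt (a i : k) (b i : k)}
    (hred : ∀ i, IsRed w (a i) (b i) (red i))
    {F : Type} [Field F] [Fintype F] [Algebra F k] (φF : 𝓞 K →+* F)
    (hFk : (algebraMap F k).comp φF = φ.comp (algebraMap (𝓞 K) (𝓞 L)))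
    (Ω : Type) [Field Ω] [IsAlgClosed Ω] [Algebra k Ω] [Algebra.IsAlgebraic k Ω]
    (hloc : ∀ (V : Fin r → Fin 3 → k) (u : Fin s → k), OnB a b V u →
      Fintype.card F ^ Fintype.card (Σ i, ι i) ≤ 2 * e.factorial *
      {c : (Σ i, ι i) → F | HasType Ω (zf ((algebraMap F k).comp φF) Φ Λ V u c) (σ ^ 2)}.ncard) :
    LocL K L a b Γ (Σ i, ι i) ω (1 / (2 * (e.factorial : ℝ))) (BadT2 ω a b Φ Λ p₁ σ) k φ w red
      F φF := by
  classical
  refine ⟨fun x y => {t | ¬ HasType Ω (zf ((algebraMap F k).comp φF) Φ Λ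
    (fun i => rep (x i)) y t) (σ ^ 2)}, ?_, ?_⟩
  · intro x y hy
    have h := hloc (fun i => rep (x i)) y ⟨fun i => FD.onE_rep _, hy⟩
    set T := {c : (Σ i, ι i) → F | HasType Ω (zf ((algebraMap F k).comp φF) Φ Λ
      (fun i => rep (x i)) y c) (σ ^ 2)} with hT
    have hc := Set.ncard_add_ncard_compl T (Set.toFinite _) (Set.toFinite _)
    rw [Nat.card_eq_fintype_card, Fintype.card_fun] at hc
    have hc' : {t : (Σ i, ι i) → F | ¬ HasType Ω (zf ((algebraMap F k).comp φF) Φ Λ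
      (fun i => rep (x i)) y t) (σ ^ 2)}.ncard = Tᶜ.ncard := rfl
    rw [hc']
    have h1 : (T.ncard : ℝ) + (Tᶜ.ncard : ℝ) =
        (Fintype.card F : ℝ) ^ Fintype.card (Σ i, ι i) := by exact_mod_cast hc
    have h2 : (Fintype.card F : ℝ) ^ Fintype.card (Σ i, ι i) ≤
        2 * (e.factorial : ℝ) * T.ncard := by exact_mod_cast h
    have h3 : (0 : ℝ) < 2 * (e.factorial : ℝ) := by
      have : (0 : ℝ) < e.factorial := by exact_mod_cast e.factorial_pos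
      linarith
    have h4 : (Fintype.card F : ℝ) ^ Fintype.card (Σ i, ι i) / (2 * (e.factorial : ℝ)) ≤
        T.ncard := by
      rw [div_le_iff₀ h3]
      linarith
    have h5 : (1 - 1 / (2 * (e.factorial : ℝ))) * (Fintype.card F : ℝ) ^ Fintype.card (Σ i, ι i) =
        (Fintype.card F : ℝ) ^ Fintype.card (Σ i, ι i) -
          (Fintype.card F : ℝ) ^ Fintype.card (Σ i, ι i) / (2 * (e.factorial : ℝ)) := by
      ring
    rw [h5]
    linarith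
  · intro P u _ _ c hc
    have h := hc p hpp hp k hcard φ hφ w hw red hred Ω
    rw [← zf_eq_zc φF _ hFk] at h
    exact h

theorem card_ge {p : ℕ} (hp : p.Prime) {n : ℕ} (h : n = p ∨ n = p ^ 2) : p ≤ n := by
  rcases h with h | h
  · exact h.ge
  · rw [h, pow_two]
    exact Nat.le_mul_of_pos_left _ hp.pos

theorem locL_all (hLIN : S_LIN) (hLIN1 : S_LIN1) (hPOC : S_POC) (K : Type) [Field K]
    [NumberField K] (r s e : ℕ) (a b : Fin r → ℤ)
    (Φ : Fin (e + 1) → Pol (𝓞 K) r s 0)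
    (ι : Fin (e + 1) → Type) [∀ i, Fintype (ι i)] (Λ : (i : Fin (e + 1)) → ι i → Pol (𝓞 K) r s 0)
    (d : Fin r → ℕ) (hdΦ : ∀ i, MHomog (Φ i) d) (hdΛ : ∀ i x, MHomog (Λ i x) d)
    (htr : ∃ p₂ : ℕ, ∀ p : ℕ, p.Prime → p₂ ≤ p → ∀ (k : Type) [Field k] [CharP k p]
      (φ : 𝓞 K →+* k), ∀ i, Sep2 φ a b (Λ i))
    (L : Type) [Field L] [NumberField L] [Algebra K L] (Γ : Subgroup Lˣ) (P₀ : ℕ) :
    ∃ p₁ : ℕ, P₀ ≤ p₁ ∧ ∀ (N : ℕ) (ω : Module.Basis (Fin N) ℤ (𝓞 K)) (σ : Equiv.Perm (Fin e)),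
      ∀ p : ℕ, p.Prime → p₁ ≤ p → 12 ∣ p + 1 → ∀ (k : Type) [Field k] [Fintype k],
      (Fintype.card k = p ∨ Fintype.card k = p ^ 2) → ∀ φ : 𝓞 L →+* k,
      Function.Surjective φ → ∀ w : Place L k,
      (∀ x : 𝓞 L, (x : L) ∈ w.A ∧ w.r (x : L) = φ x) →
      ∀ red : (∀ i, Pt (a i : L) (b i : L) → Pt (a i : k) (b i : k)),
      (∀ i, IsRed w (a i) (b i) (red i)) →
      ∀ (F : Type) [Field F] [Fintype F] [Algebra F k] (φF : 𝓞 K →+* F),
      Function.Surjective φF → (algebraMap F k).comp φF = φ.comp (algebraMap (𝓞 K) (𝓞 L)) →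
      (Fintype.card F = p ∨ Fintype.card F = p ^ 2) →
      (Fintype.card k = Fintype.card F ∨ Fintype.card k = Fintype.card F ^ 2) →
      LocL K L a b Γ (Σ i, ι i) ω (1 / (2 * (e.factorial : ℝ))) (BadT2 ω a b Φ Λ p₁ σ) k φ w red
        F φF := by
  obtain ⟨q₀, hq₀⟩ := hPOC e
  obtain ⟨p₂, hp₂⟩ := htr
  refine ⟨P₀ + q₀ + p₂, by omega, ?_⟩
  intro N ω σ p hpp hp h12 k _ _ hcard φ hφ w hw red hred F _ _ _ φF hφF hFk hF1 hF2
  have hchk : CharP k p := charP_of_card hpp hcard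
  have hqF : q₀ ≤ Fintype.card F := by
    have := card_ge hpp hF1
    omega
  have hsep : ∀ i, Sep2 ((algebraMap F k).comp φF) a b (Λ i) :=
    hp₂ p hpp (by omega) k ((algebraMap F k).comp φF)
  have hgen : ∀ (Ω : Type) [Field Ω] [IsAlgClosed Ω] [Algebra k Ω] [Algebra.IsAlgebraic k Ω],
      LocL K L a b Γ (Σ i, ι i) ω (1 / (2 * (e.factorial : ℝ)))
        (BadT2 ω a b Φ Λ (P₀ + q₀ + p₂) σ) k φ w red F φF := by
    intro Ω _ _ _ _
    exact locL_of ω a b Φ Λ Γ (P₀ + q₀ + p₂) σ hpp hp hcard hφ hw hred φF hFk Ω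
      (fun V u hV => localHL hLIN hLIN1 hq₀ hF2 hqF φF a b Φ Λ d hdΦ hdΛ hsep V u hV σ)
  exact hgen (AlgebraicClosure k)

end Pool.Agent.N89.HL
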