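import Pool.Agent.N89.HL.Main

/-! Project HL (helper89): from the local types to the Galois group, the main bound. -/

set_option autoImplicit false

namespace Pool.Agent.N89.HL

open MvPolynomial NumberField Pool.Agent.H901R3.MS Pool.Agent.W659 Pool.Agent.W659.SA
  Pool.Agent.N89.GS Pool.Agent.N89.BD Pool.Agent.N89.HX WeierstrassCurve

/-- the member of the linear system, with coefficients in `𝓞 L` -/
noncomputable def mem {K L : Type} [Field K] [NumberField K] [Field L] [NumberField L]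
    [Algebra K L] {r s e : ℕ} (Φ : Fin (e + 1) → Pol (𝓞 K) r s 0)
    {ι : Fin (e + 1) → Type} [∀ i, Fintype (ι i)] (Λ : (i : Fin (e + 1)) → ι i → Pol (𝓞 K) r s 0)
    (t : (Σ i, ι i) → 𝓞 K) (i : Fin (e + 1)) : Pol (𝓞 L) r s 0 :=
  map (algebraMap (𝓞 K) (𝓞 L)) (Φ i) +
    ∑ x, C (algebraMap (𝓞 K) (𝓞 L) (t ⟨i, x⟩)) * map (algebraMap (𝓞 K) (𝓞 L)) (Λ i x)

theorem mem_homog {K L : Type} [Field K] [NumberField K] [Field L] [NumberField L]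
    [Algebra K L] {r s e : ℕ} (Φ : Fin (e + 1) → Pol (𝓞 K) r s 0)
    {ι : Fin (e + 1) → Type} [∀ i, Fintype (ι i)] (Λ : (i : Fin (e + 1)) → ι i → Pol (𝓞 K) r s 0)
    (d : Fin r → ℕ) (hdΦ : ∀ i, MHomog (Φ i) d) (hdΛ : ∀ i x, MHomog (Λ i x) d)
    (t : (Σ i, ι i) → 𝓞 K) (i : Fin (e + 1)) : MHomog (mem (L := L) Φ Λ t i) d :=
  mhomog_add (mhomog_mapR _ (hdΦ i))
    (mhomog_sum _ (fun x => mhomog_C_mul (mhomog_mapR _ (hdΛ i x)) _))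

theorem vl_mem {K L A : Type} [Field K] [NumberField K] [Field L] [NumberField L]
    [Algebra K L] [CommRing A] (φ : 𝓞 L →+* A) {r s e : ℕ} (Φ : Fin (e + 1) → Pol (𝓞 K) r s 0)
    {ι : Fin (e + 1) → Type} [∀ i, Fintype (ι i)] (Λ : (i : Fin (e + 1)) → ι i → Pol (𝓞 K) r s 0)
    (t : (Σ i, ι i) → 𝓞 K) (V : Fin r → Fin 3 → A) (u : Fin s → A) (T : Fin 0 → A) :
    (fun i => vl φ (mem Φ Λ t i) V u T) =
      zc (φ.comp (algebraMap (𝓞 K) (𝓞 L))) Φ Λ V u t := by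
  have hT : T = Fin.elim0 := Subsingleton.elim _ _
  subst hT
  funext i
  unfold mem zc
  rw [vl_add, vl_sum, vl_mapR]
  simp only [vl_C_mul, vl_mapR]
  rfl

theorem zc_scale {O A : Type} [CommRing O] [CommRing A] (φ : O →+* A)
    {r s e : ℕ} (Φ : Fin (e + 1) → Pol O r s 0) {ι : Fin (e + 1) → Type} [∀ i, Fintype (ι i)]
    (Λ : (i : Fin (e + 1)) → ι i → Pol O r s 0) (d : Fin r → ℕ) (hdΦ : ∀ i, MHomog (Φ i) d)
    (hdΛ : ∀ i x, MHomog (Λ i x) d) (V : Fin r → Fin 3 → A) (u : Fin s → A) (c : Fin r → A)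
    (t : (Σ i, ι i) → O) :
    zc φ Φ Λ (fun i j => c i * V i j) u t = fun i => (∏ i, c i ^ d i) * zc φ Φ Λ V u t i := by
  funext i
  unfold zc
  rw [vl_scale _ (Φ i) d (hdΦ i), mul_add, Finset.mul_sum]
  congr 1
  refine Finset.sum_congr rfl fun x _ => ?_
  rw [vl_scale _ (Λ i x) d (hdΛ i x)]
  ring

/-- one permutation -/
theorem frob_stepL (hFRB : S_FRB) {K L : Type} [Field K] [NumberField K] [Field L] [NumberField L]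
    [Algebra K L] {N r s e : ℕ}
    (ω : Module.Basis (Fin N) ℤ (𝓞 K)) (a b : Fin r → ℤ) (Φ : Fin (e + 1) → Pol (𝓞 K) r s 0)
    {ι : Fin (e + 1) → Type} [∀ i, Fintype (ι i)] (Λ : (i : Fin (e + 1)) → ι i → Pol (𝓞 K) r s 0)
    (d : Fin r → ℕ) (hdΦ : ∀ i, MHomog (Φ i) d) (hdΛ : ∀ i x, MHomog (Λ i x) d)
    (S p₁ : ℕ) (hS : 1 ≤ S) (hp₁ : S + 1 ≤ p₁)
    (σ : Equiv.Perm (Fin e)) (P : ∀ i, Pt (a i : L) (b i : L)) (u : Fin s → Lˣ)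
    (hu : ∀ l, u l ∈ SUn L S) (c : (Σ i, ι i) × Fin N → ℤ)
    (hc : c ∉ BadT2 ω a b Φ Λ p₁ σ P u)
    (c₂ : Fin r → L) (hc₂ : ∀ i, c₂ i ≠ 0) :
    ∃ (x : Fin e → AlgebraicClosure L) (τ : AlgebraicClosure L ≃ₐ[L] AlgebraicClosure L),
      Roots (algebraMap L (AlgebraicClosure L)) (zc (toL K L) Φ Λ
        (fun i j => c₂ i * rep (P i) j) (fun l => ((u l : Lˣ) : L)) (vecJ ω c)) x ∧
      ∀ i, τ (x i) = x ((σ ^ 2) i) := by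
  simp only [BadT2, Set.mem_ofPred_eq, not_forall, not_not] at hc
  obtain ⟨p, hpp, hp, k, _, _, hcard, φ, hφ, w, hw, red, hred, Ω, _, _, _, _, hT⟩ := hc
  have hchk : CharP k p := charP_of_card hpp hcard
  choose c₁ hc₁0 hc₁ using fun i => t_R7 t_R1 L k w (a i) (b i) (red i) (hred i) (P i)
  have hsu : ∀ l, ((u l : Lˣ) : L) ∈ w.A := fun l =>
    (sun_place hpp hS (by omega) w (fun x => (hw x).1) (hu l)).1
  have hlv := fun i => loc_val w φ hw a b red P c₁ hc₁ (mem Φ Λ (vecJ ω c) i) d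
    (mem_homog Φ Λ d hdΦ hdΛ (vecJ ω c) i)
    (fun l => ((u l : Lˣ) : L)) hsu Fin.elim0
  have hT' : HasType Ω (fun i => vl φ (mem Φ Λ (vecJ ω c) i) (fun i => rep (red i (P i)))
      (fun l => w.r ((u l : Lˣ) : L)) (fun i => φ (Fin.elim0 i))) (σ ^ 2) := by
    rw [vl_mem]
    exact hT
  obtain ⟨x, τ, hx, hτ⟩ := hFRB L k w φ hφ hw Ω e _ _ (σ ^ 2) hlv hT'
  refine ⟨x, τ, ?_, hτ⟩
  have hm : (∏ i, c₁ i ^ d i) ≠ 0 := Finset.prod_ne_zero_iff.2 fun i _ => pow_ne_zero _ (hc₁0 i)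
  have hm2 : (∏ i, c₂ i ^ d i) ≠ 0 := Finset.prod_ne_zero_iff.2 fun i _ => pow_ne_zero _ (hc₂ i)
  have h1 := roots_smul _ _ x ((∏ i, c₂ i ^ d i) * (∏ i, c₁ i ^ d i)⁻¹)
    (mul_ne_zero hm2 (inv_ne_zero hm)) hx
  have h2 := vl_mem (K := K) (algebraMap (𝓞 L) L) Φ Λ (vecJ ω c) (fun i => rep (P i))
    (fun l => ((u l : Lˣ) : L)) (fun i : Fin 0 => ((Fin.elim0 i : 𝓞 L) : L))
  have h3 : (algebraMap (𝓞 L) L).comp (algebraMap (𝓞 K) (𝓞 L)) = toL K L := by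
    ext x
    rfl
  rw [h3] at h2
  rw [zc_scale _ Φ Λ d hdΦ hdΛ, ← h2]
  convert h1 using 2
  field_simp

theorem badC_sub (hFRB : S_FRB) {K L : Type} [Field K] [NumberField K] [Field L] [NumberField L]
    [Algebra K L] {N r s e : ℕ}
    (ω : Module.Basis (Fin N) ℤ (𝓞 K)) (a b : Fin r → ℤ)
    (hab : ∀ i, a i * b i = 0 ∧ (a i ≠ 0 ∨ b i ≠ 0)) (Φ : Fin (e + 1) → Pol (𝓞 K) r s 0)
    {ι : Fin (e + 1) → Type} [∀ i, Fintype (ι i)] (Λ : (i : Fin (e + 1)) → ι i → Pol (𝓞 K) r s 0)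
    (d : Fin r → ℕ) (hdΦ : ∀ i, MHomog (Φ i) d) (hdΛ : ∀ i x, MHomog (Λ i x) d)
    (S p₁ : ℕ) (hS : 1 ≤ S) (hp₁ : S + 1 ≤ p₁) :
    BadC (L := L) ω a b Φ Λ (SUn L S) ⊆ ⋃ σ : Equiv.Perm (Fin e),
      {c | ∃ (P : ∀ i, Pt (a i : L) (b i : L)) (u : Fin s → Lˣ), (∀ l, u l ∈ SUn L S) ∧
        c ∈ BadT2 ω a b Φ Λ p₁ σ P u} := by
  rintro c ⟨V, u, hV, hu, hng⟩
  have hdisc := disc_ne hab
  have hdL : ∀ i, Disc (a i : L) (b i : L) := fun i =>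
    FD.disc_of two_ne_zero (by exact_mod_cast hdisc i)
  choose P c₂ hc0 hc2 using fun i => t_PTSK L (a i) (b i) (V i) (hdL i) (hV i)
  have hVP : V = fun i j => c₂ i * rep (P i) j := by
    funext i j
    exact hc2 i j
  by_contra hcon
  rw [Set.mem_iUnion] at hcon
  push Not at hcon
  apply hng
  intro σ
  rw [hVP]
  exact frob_stepL hFRB ω a b Φ Λ d hdΦ hdΛ S p₁ hS hp₁ σ P u hu c
    (fun h => hcon σ ⟨P, u, hu, h⟩) c₂ hc0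

theorem boxJ_finite {J : Type} [Finite J] {N : ℕ} (H : ℕ) :
    {c : J × Fin N → ℤ | ∀ i, |c i| ≤ (H : ℤ)}.Finite := by
  classical
  have := Fintype.ofFinite J
  refine Set.Finite.subset (Box (J × Fin N) H).finite_toSet ?_
  intro c hc
  rw [Finset.mem_coe]
  unfold Box
  rw [Fintype.mem_piFinset]
  intro i
  rw [Finset.mem_Icc]
  exact abs_le.1 (hc i)

theorem mainHL (hLIN : S_LIN) (hLIN1 : S_LIN1) (hPOC : S_POC) (hFRB : S_FRB) (hSUF : S_SUF)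
    (K : Type) [Field K]
    [NumberField K] (N : ℕ) (ω : Module.Basis (Fin N) ℤ (𝓞 K)) (r s e : ℕ) (a b : Fin r → ℤ)
    (hab : ∀ i, a i * b i = 0 ∧ (a i ≠ 0 ∨ b i ≠ 0))
    (Φ : Fin (e + 1) → Pol (𝓞 K) r s 0)
    (ι : Fin (e + 1) → Type) [∀ i, Fintype (ι i)] (Λ : (i : Fin (e + 1)) → ι i → Pol (𝓞 K) r s 0)
    (d : Fin r → ℕ) (hdΦ : ∀ i, MHomog (Φ i) d) (hdΛ : ∀ i x, MHomog (Λ i x) d)
    (htr : ∃ p₂ : ℕ, ∀ p : ℕ, p.Prime → p₂ ≤ p → ∀ (k : Type) [Field k] [CharP k p]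
      (φ : 𝓞 K →+* k), ∀ i, Sep2 φ a b (Λ i))
    (L : Type) [Field L] [NumberField L] [Algebra K L] (S : ℕ) (hS : 1 ≤ S) :
    ∃ c₀ : ℝ, 0 < c₀ ∧ ∃ H₀ : ℕ, ∀ H : ℕ, H₀ ≤ H →
      (({c : (Σ i, ι i) × Fin N → ℤ | (∀ i, |c i| ≤ (H : ℤ)) ∧
        c ∈ BadC (L := L) ω a b Φ Λ (SUn L S)}.ncard : ℕ) : ℝ) ≤
        (2 * (H : ℝ) + 1) ^ (Fintype.card (Σ i, ι i) * N) *
          Real.exp (-c₀ * (Real.log H / Real.log (Real.log H))) := by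
  obtain ⟨p₁, hp₁, hloc⟩ := locL_all hLIN hLIN1 hPOC K r s e a b Φ ι Λ d hdΦ hdΛ htr L (SUn L S)
    (S + 1)
  have hδ : (0 : ℝ) < 1 / (2 * (e.factorial : ℝ)) := by
    have : (0 : ℝ) < e.factorial := by exact_mod_cast e.factorial_pos
    positivity
  have hδ1 : 1 / (2 * (e.factorial : ℝ)) < 1 := by
    have : (1 : ℝ) ≤ e.factorial := by exact_mod_cast e.factorial_pos
    rw [div_lt_one (by positivity)]
    linarith
  refine union_bound (I := Equiv.Perm (Fin e)) (fun (c : (Σ i, ι i) × Fin N → ℤ) (H : ℕ) =>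
    ∀ i, |c i| ≤ (H : ℤ)) (fun H => boxJ_finite H) (Fintype.card (Σ i, ι i) * N)
    (fun σ => {c | ∃ (P : ∀ i, Pt (a i : L) (b i : L)) (u : Fin s → Lˣ), (∀ l, u l ∈ SUn L S) ∧
        c ∈ BadT2 ω a b Φ Λ p₁ σ P u}) (fun σ => ?_) (BadC (L := L) ω a b Φ Λ (SUn L S))
    (badC_sub hFRB ω a b hab Φ Λ d hdΦ hdΛ S p₁ hS hp₁)
  obtain ⟨p₀, R, hSv⟩ := sieveEL K L a b hab (SUn L S) (hSUF L S hS) (Σ i, ι i) N ω _ hδ hδ1 p₁
    (BadT2 ω a b Φ Λ p₁ σ) (hloc N ω σ)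
  exact asym L (Σ i, ι i) N _ hδ hδ1 p₀ R (fun H => {c : (Σ i, ι i) × Fin N → ℤ |
    (∀ i, |c i| ≤ (H : ℤ)) ∧ ∃ (P : ∀ i, Pt (a i : L) (b i : L)) (u : Fin s → Lˣ),
      (∀ l, u l ∈ SUn L S) ∧ c ∈ BadT2 ω a b Φ Λ p₁ σ P u}) hSv

end Pool.Agent.N89.HL
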