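import Pool.Agent.N89.HX.Stm

/-!
# Project HL (helper89): random coverings of semiabelian varieties over all extensions of `K`

`K` is a number field, `G = E_1 × ⋯ × E_r × G_m^s`, `F_c(P; X) = ∑_i (Φ_i(P) + ∑_x c_(i,x) Λ_(i,x)(P)) X^i` a
random polynomial of degree `e ≥ 3` over `G` with coefficients `c ∈ (𝓞 K)^n`. For 100 % of the `c` the
Galois group of `F_c(P; X)` over `L` contains the alternating group for all `P ∈ G(L)`, for every
finite extension `L` of `K`. Definitions and statements of the tasks.
-/

set_option autoImplicit false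

namespace Pool.Agent.N89.HL

open Polynomial NumberField Pool.Agent.N89.HX

open Classical in
/-- the Galois group of `p` contains the alternating group: `p` is separable of degree `e`, and all
the even permutations of its roots come from automorphisms of the algebraic closure -/
def AltGal {K : Type} [Field K] (e : ℕ) (p : K[X]) : Prop :=
  p.natDegree = e ∧ p.Separable ∧ ∀ π : Equiv.Perm (p.rootSet (AlgebraicClosure K)),
    Equiv.Perm.sign π = 1 → ∃ τ : AlgebraicClosure K ≃ₐ[K] AlgebraicClosure K,
      ∀ x : p.rootSet (AlgebraicClosure K), τ (x : AlgebraicClosure K) = π x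

/-- POC: the number of the polynomials of degree `e` over a finite field with Frobenius `σ` -/
def S_POC : Prop := ∀ e : ℕ, ∃ q₀ : ℕ, ∀ (k Ω : Type) [Field k] [Fintype k] [Field Ω]
  [IsAlgClosed Ω] [Algebra k Ω] [Algebra.IsAlgebraic k Ω], q₀ ≤ Fintype.card k →
  ∀ σ : Equiv.Perm (Fin e), Fintype.card k ^ (e + 1) ≤
    2 * e.factorial * {z : Fin (e + 1) → k | HasType Ω z σ}.ncard

/-- ALT: a polynomial whose Galois group contains permutations of the types of all squares has a
Galois group which contains the alternating group -/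
def S_ALT : Prop := ∀ (K : Type) [Field K] (e : ℕ) (f : Fin (e + 1) → K), 3 ≤ e →
  (∀ σ : Equiv.Perm (Fin e), ∃ (x : Fin e → AlgebraicClosure K)
    (τ : AlgebraicClosure K ≃ₐ[K] AlgebraicClosure K),
    Roots (algebraMap K (AlgebraicClosure K)) f x ∧ ∀ i, τ (x i) = x ((σ ^ 2) i)) →
  AltGal e (pol f)

end Pool.Agent.N89.HL
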